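import Mathlib

/-! Helper lemmas for the unit square problem: rotations, arcs, a Baire category lemma. -/

set_option autoImplicit false

namespace Pool.Agent.LibSq57

open Metric Set Filter Topology

abbrev E3 := EuclideanSpace ℝ (Fin 3)

local instance factFinrank : Fact (Module.finrank ℝ E3 = 2 + 1) := ⟨by simp⟩

/-! ### Rotations -/

/-- the rotation taking the unit vector x to the unit vector y -/
noncomputable def rotv (x y z : E3) : E3 :=
  z - (inner ℝ (x + y) z / (1 + inner ℝ x y)) • (x + y) + (2 * inner ℝ x z) • y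

lemma rotv_self {x y : E3} (hx : ‖x‖ = 1) (h : 1 + inner ℝ x y ≠ 0) : rotv x y x = y := by
  unfold rotv
  have h1 : inner ℝ (x + y) x = 1 + inner ℝ x y := by
    rw [inner_add_left, real_inner_self_eq_norm_sq, hx, real_inner_comm x y]; norm_num
  rw [h1, div_self h, real_inner_self_eq_norm_sq, hx]
  module

lemma rotv_add (x y z w : E3) : rotv x y (z + w) = rotv x y z + rotv x y w := by
  unfold rotv
  rw [inner_add_right, inner_add_right]
  module

lemma rotv_smul (x y : E3) (a : ℝ) (z : E3) : rotv x y (a • z) = a • rotv x y z := by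
  unfold rotv
  rw [inner_smul_right, inner_smul_right]
  module

lemma rotv_inner {x y : E3} (hx : ‖x‖ = 1) (hy : ‖y‖ = 1) (h : 1 + inner ℝ x y ≠ 0) (z w : E3) :
    inner ℝ (rotv x y z) (rotv x y w) = inner ℝ z w := by
  unfold rotv
  have hxx : inner ℝ x x = (1 : ℝ) := by rw [real_inner_self_eq_norm_sq, hx]; norm_num
  have hyy : inner ℝ y y = (1 : ℝ) := by rw [real_inner_self_eq_norm_sq, hy]; norm_num
  have c1 : inner ℝ z x = (inner ℝ x z : ℝ) := real_inner_comm _ _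
  have c2 : inner ℝ z y = (inner ℝ y z : ℝ) := real_inner_comm _ _
  have c3 : inner ℝ y x = (inner ℝ x y : ℝ) := real_inner_comm _ _
  simp only [inner_add_left, inner_add_right, inner_sub_left, inner_sub_right, inner_smul_left,
    inner_smul_right, conj_trivial, hxx, hyy, c1, c2, c3]
  field_simp
  ring

lemma rotv_norm {x y : E3} (hx : ‖x‖ = 1) (hy : ‖y‖ = 1) (h : 1 + inner ℝ x y ≠ 0) (z : E3) :
    ‖rotv x y z‖ = ‖z‖ := by
  have := rotv_inner hx hy h z z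
  rw [real_inner_self_eq_norm_sq, real_inner_self_eq_norm_sq] at this
  exact (sq_eq_sq₀ (norm_nonneg _) (norm_nonneg _)).1 this

lemma rotv_tendsto {x : E3} (hx : ‖x‖ = 1) (z : E3) :
    Tendsto (fun y => rotv x y z) (𝓝 x) (𝓝 z) := by
  have hxx : inner ℝ x x = (1 : ℝ) := by rw [real_inner_self_eq_norm_sq, hx]; norm_num
  have hc : ContinuousAt (fun y => rotv x y z) x := by
    unfold rotv
    have : 1 + inner ℝ x x ≠ (0 : ℝ) := by rw [hxx]; norm_num
    fun_prop (disch := assumption)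
  have hv : rotv x x z = z := by
    unfold rotv
    rw [hxx, inner_add_left]
    have : (inner ℝ x z + inner ℝ x z) / (1 + 1) = (inner ℝ x z : ℝ) := by ring
    rw [this]
    module
  have := hc.tendsto
  rwa [hv] at this

lemma rotv_ne {x : E3} (hx : ‖x‖ = 1) : ∀ᶠ y in 𝓝 x, 1 + inner ℝ x y ≠ (0 : ℝ) := by
  have hxx : inner ℝ x x = (1 : ℝ) := by rw [real_inner_self_eq_norm_sq, hx]; norm_num
  have hc : ContinuousAt (fun y => 1 + (inner ℝ x y : ℝ)) x := by fun_prop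
  apply hc.eventually_ne
  rw [hxx]; norm_num

/-! ### Frames -/

lemma exists_unit_perp (a : E3) : ∃ e : E3, ‖e‖ = 1 ∧ inner ℝ a e = (0 : ℝ) := by
  by_cases ha : a = 0
  · refine ⟨EuclideanSpace.single 0 1, by simp, by simp [ha]⟩
  have h2 : Module.finrank ℝ ((ℝ ∙ a)ᗮ : Submodule ℝ E3) = 2 :=
    Submodule.finrank_orthogonal_span_singleton ha
  let b := (stdOrthonormalBasis ℝ ((ℝ ∙ a)ᗮ : Submodule ℝ E3)).reindex (finCongr h2)
  exact ⟨(b 0 : E3), b.orthonormal.1 0,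
    Submodule.mem_orthogonal_singleton_iff_inner_right.1 (b 0).2⟩

lemma exists_frame (w : E3) (hw : w ≠ 0) :
    ∃ e₁ e₂ : E3, ‖e₁‖ = 1 ∧ ‖e₂‖ = 1 ∧ inner ℝ e₁ e₂ = (0 : ℝ) ∧ inner ℝ w e₁ = (0 : ℝ) ∧
      inner ℝ w e₂ = (0 : ℝ) := by
  have h2 : Module.finrank ℝ ((ℝ ∙ w)ᗮ : Submodule ℝ E3) = 2 :=
    Submodule.finrank_orthogonal_span_singleton hw
  let b := (stdOrthonormalBasis ℝ ((ℝ ∙ w)ᗮ : Submodule ℝ E3)).reindex (finCongr h2)
  have hb := b.orthonormal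
  refine ⟨(b 0 : E3), (b 1 : E3), ?_, ?_, ?_, ?_, ?_⟩
  · exact hb.1 0
  · exact hb.1 1
  · exact hb.2 (show (0 : Fin 2) ≠ 1 by decide)
  · exact Submodule.mem_orthogonal_singleton_iff_inner_right.1 (b 0).2
  · exact Submodule.mem_orthogonal_singleton_iff_inner_right.1 (b 1).2

/-- a unit vector orthogonal to two given vectors -/
lemma exists_unit_perp₂ (a b : E3) : ∃ e : E3, ‖e‖ = 1 ∧ inner ℝ a e = (0 : ℝ) ∧
    inner ℝ b e = (0 : ℝ) := by
  by_cases ha : a = 0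
  · obtain ⟨e, h1, h2⟩ := exists_unit_perp b
    exact ⟨e, h1, by simp [ha], h2⟩
  obtain ⟨e₁, e₂, n1, n2, h12, h1, h2⟩ := exists_frame a ha
  by_cases hb : inner ℝ b e₁ = (0 : ℝ)
  · exact ⟨e₁, n1, h1, hb⟩
  have n11 : inner ℝ e₁ e₁ = (1 : ℝ) := by rw [real_inner_self_eq_norm_sq, n1]; norm_num
  have n22 : inner ℝ e₂ e₂ = (1 : ℝ) := by rw [real_inner_self_eq_norm_sq, n2]; norm_num
  have h21 : inner ℝ e₂ e₁ = (0 : ℝ) := by rw [real_inner_comm]; exact h12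
  set z : E3 := (inner ℝ b e₂ : ℝ) • e₁ - (inner ℝ b e₁ : ℝ) • e₂ with hz
  have hz0 : z ≠ 0 := by
    intro h0
    have : inner ℝ z e₂ = (0 : ℝ) := by rw [h0]; simp
    rw [hz, inner_sub_left, inner_smul_left, inner_smul_left, h12, n22] at this
    simp at this
    exact hb this
  have hzn : ‖z‖ ≠ 0 := norm_ne_zero_iff.2 hz0
  refine ⟨‖z‖⁻¹ • z, ?_, ?_, ?_⟩
  · rw [norm_smul, norm_inv, norm_norm]
    exact inv_mul_cancel₀ hzn
  · rw [inner_smul_right, hz, inner_sub_right, inner_smul_right, inner_smul_right, h1, h2]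
    simp
  · rw [inner_smul_right, hz, inner_sub_right, inner_smul_right, inner_smul_right]
    ring

/-! ### Arcs -/

lemma normalize_close {ρ : ℝ} {a z : E3} (ha : ‖a‖ = ρ) (hz : z ≠ 0) :
    ‖(ρ / ‖z‖) • z - a‖ ≤ 2 * ‖z - a‖ := by
  have hzn : ‖z‖ ≠ 0 := norm_ne_zero_iff.2 hz
  have h1 : (ρ / ‖z‖) • z - a = ((ρ / ‖z‖) • z - z) + (z - a) := by abel
  have h2 : ‖(ρ / ‖z‖) • z - z‖ = |ρ - ‖z‖| := by
    have : (ρ / ‖z‖) • z - z = ((ρ - ‖z‖) / ‖z‖) • z := by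
      rw [sub_div, div_self hzn, sub_smul, one_smul]
    rw [this, norm_smul, Real.norm_eq_abs, abs_div, abs_norm, div_mul_cancel₀ _ hzn]
  have h3 : |ρ - ‖z‖| ≤ ‖z - a‖ := by
    rw [← ha, abs_sub_comm]
    exact abs_norm_sub_norm_le z a
  calc ‖(ρ / ‖z‖) • z - a‖ ≤ ‖(ρ / ‖z‖) • z - z‖ + ‖z - a‖ := by rw [h1]; exact norm_add_le _ _
    _ ≤ 2 * ‖z - a‖ := by rw [h2]; linarith

/-- a short arc on a sphere, orthogonal to everything orthogonal to its end points -/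
lemma exists_arc {ρ : ℝ} {a b : E3} (ha : ‖a‖ = ρ) (hb : ‖b‖ = ρ) (hab : ‖b - a‖ < ρ) :
    ∃ C : Set E3, IsPreconnected C ∧ a ∈ C ∧ b ∈ C ∧ ∀ c ∈ C, ‖c‖ = ρ ∧ ‖c - a‖ ≤ 2 * ‖b - a‖ ∧
      ∀ x : E3, inner ℝ a x = (0 : ℝ) → inner ℝ b x = (0 : ℝ) → inner ℝ c x = (0 : ℝ) := by
  have hρ : 0 < ρ := lt_of_le_of_lt (norm_nonneg _) hab
  let z : ℝ → E3 := fun t => a + t • (b - a)
  have hz0 : ∀ t ∈ Icc (0 : ℝ) 1, z t ≠ 0 := by
    intro t ht h0
    have h1 : a = -(t • (b - a)) := by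
      have : a + t • (b - a) = 0 := h0
      exact eq_neg_of_add_eq_zero_left this
    have h2 : ‖a‖ = |t| * ‖b - a‖ := by
      conv_lhs => rw [h1]
      rw [norm_neg, norm_smul, Real.norm_eq_abs]
    rw [ha, abs_of_nonneg ht.1] at h2
    have : t * ‖b - a‖ ≤ 1 * ‖b - a‖ := mul_le_mul_of_nonneg_right ht.2 (norm_nonneg _)
    linarith
  have hcont : ContinuousOn (fun t => (ρ / ‖z t‖) • z t) (Icc (0 : ℝ) 1) := by
    have hzc : Continuous z := by fun_prop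
    have h1 : ContinuousOn (fun t => ρ / ‖z t‖) (Icc (0 : ℝ) 1) :=
      ContinuousOn.div continuousOn_const hzc.norm.continuousOn
        (fun t ht => norm_ne_zero_iff.2 (hz0 t ht))
    exact h1.smul hzc.continuousOn
  refine ⟨(fun t => (ρ / ‖z t‖) • z t) '' Icc (0 : ℝ) 1, isPreconnected_Icc.image _ hcont, ?_, ?_, ?_⟩
  · refine ⟨0, by simp, ?_⟩
    simp only [z, zero_smul, add_zero]
    rw [ha, div_self hρ.ne', one_smul]
  · refine ⟨1, by simp, ?_⟩
    simp only [z, one_smul, add_sub_cancel]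
    rw [hb, div_self hρ.ne', one_smul]
  · rintro c ⟨t, ht, rfl⟩
    have hzn : ‖z t‖ ≠ 0 := norm_ne_zero_iff.2 (hz0 t ht)
    refine ⟨?_, ?_, ?_⟩
    · simp only
      rw [norm_smul, Real.norm_eq_abs, abs_div, abs_norm, div_mul_cancel₀ _ hzn, abs_of_pos hρ]
    · refine (normalize_close ha (hz0 t ht)).trans ?_
      have : z t - a = t • (b - a) := by simp [z]
      rw [this, norm_smul, Real.norm_eq_abs, abs_of_nonneg ht.1]
      have : t * ‖b - a‖ ≤ 1 * ‖b - a‖ := mul_le_mul_of_nonneg_right ht.2 (norm_nonneg _)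
      linarith
    · intro x hax hbx
      simp only [z]
      rw [inner_smul_left, inner_add_left, inner_smul_left, inner_sub_left, hax, hbx]
      simp

/-! ### Crossing -/

lemma crossing {P Q C : Set E3} (hC : IsPreconnected C) (hcov : C ⊆ closure P ∪ closure Q)
    (hP : (C ∩ closure P).Nonempty) (hQ : (C ∩ closure Q).Nonempty) :
    (C ∩ (closure P ∩ closure Q)).Nonempty :=
  isPreconnected_closed_iff.1 hC _ _ isClosed_closure isClosed_closure hcov hP hQ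

/-! ### A Baire category lemma -/

theorem generic_point {ι : Type} [Countable ι] (B : Set E3) (hB : IsClosed B)
    (W : Set E3) (Rel : ι → E3 → E3 → Prop)
    (hopen : ∀ i u x, u ∈ B → Rel i u x → ∀ O : Set E3, IsOpen O → x ∈ O →
      ∀ᶠ u' in 𝓝[B] u, ∃ x' ∈ O, Rel i u' x')
    (hW : IsOpen W)
    (hdense : ∀ i u x, u ∈ B → Rel i u x → ∀ ε > 0, ∃ u' ∈ B, dist u' u < ε ∧
      ∃ x' ∈ W, dist x' x < ε ∧ Rel i u' x')
    (u₀ : E3) (hu₀ : u₀ ∈ B) (r : ℝ) (hr : 0 < r) :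
    ∃ u ∈ B, dist u u₀ < r ∧ ∀ i x, Rel i u x → ∀ ε > 0, ∃ x' ∈ W, dist x' x < ε ∧ Rel i u x' := by
  classical
  haveI : CompleteSpace B := hB.completeSpace_coe
  let bs := TopologicalSpace.countableBasis E3
  let G : ι × bs → Set B := fun k => {u | ∃ x ∈ (k.2 : Set E3) ∩ W, Rel k.1 u x}
  let H : ι × bs → Set B := fun k => {u | ¬ ∃ x ∈ (k.2 : Set E3), Rel k.1 u x}
  let T : ι × bs → Set B := fun k => G k ∪ interior (H k)
  have hbo : ∀ O ∈ bs, IsOpen O := fun O hO => TopologicalSpace.isOpen_of_mem_countableBasis hO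
  have hGo : ∀ k, IsOpen (G k) := by
    intro k
    rw [isOpen_iff_mem_nhds]
    rintro ⟨u, hu⟩ ⟨x, hx, hR⟩
    have h1 := hopen k.1 u x hu hR ((k.2 : Set E3) ∩ W) ((hbo _ k.2.2).inter hW) hx
    rw [nhds_subtype_eq_comap_nhdsWithin]
    exact (h1.comap _).mono fun a ha => ha
  have hTo : ∀ k, IsOpen (T k) := fun k => (hGo k).union isOpen_interior
  have hTd : ∀ k, Dense (T k) := by
    intro k
    rw [dense_iff_inter_open]
    rintro N hN ⟨u, huN⟩
    by_cases hcase : ∃ u₁ ∈ N, ∃ x₁ ∈ (k.2 : Set E3), Rel k.1 u₁ x₁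
    · obtain ⟨u₁, hu₁, x₁, hx₁, hR⟩ := hcase
      obtain ⟨ε₁, hε₁, hball₁⟩ := Metric.isOpen_iff.1 hN u₁ hu₁
      obtain ⟨ε₂, hε₂, hball₂⟩ := Metric.isOpen_iff.1 (hbo _ k.2.2) x₁ hx₁
      obtain ⟨u', hu', hd, x', hx', hd', hR'⟩ := hdense k.1 u₁ x₁ u₁.2 hR (min ε₁ ε₂)
        (lt_min hε₁ hε₂)
      refine ⟨⟨u', hu'⟩, hball₁ (lt_of_lt_of_le hd (min_le_left _ _)), Or.inl ⟨x', ⟨?_, hx'⟩, hR'⟩⟩
      exact hball₂ (lt_of_lt_of_le hd' (min_le_right _ _))
    · refine ⟨u, huN, Or.inr ?_⟩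
      refine mem_interior.2 ⟨N, ?_, hN, huN⟩
      intro v hv hex
      exact hcase ⟨v, hv, hex⟩
  haveI : Countable bs := (TopologicalSpace.countable_countableBasis E3).to_subtype
  have hdn : Dense (⋂ k, T k) := dense_iInter_of_isOpen hTo hTd
  obtain ⟨u, huB, huT⟩ := dense_iff_inter_open.1 hdn (ball (⟨u₀, hu₀⟩ : B) r) isOpen_ball
    ⟨⟨u₀, hu₀⟩, mem_ball_self hr⟩
  refine ⟨u, u.2, huB, ?_⟩
  intro i x hR ε hε
  obtain ⟨O, hO, hxO, hOs⟩ := (TopologicalSpace.isBasis_countableBasis E3).exists_subset_of_mem_open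
    (mem_ball_self hε : x ∈ ball x ε) isOpen_ball
  have hk := mem_iInter.1 huT (i, ⟨O, hO⟩)
  rcases hk with hk | hk
  · obtain ⟨x', ⟨hx'O, hx'W⟩, hR'⟩ := hk
    exact ⟨x', hx'W, hOs hx'O, hR'⟩
  · exact absurd ⟨x, hxO, hR⟩ (interior_subset hk)

end Pool.Agent.LibSq57
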