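import Pool.Agent.LibSq57.Basic

set_option autoImplicit false

namespace Pool.Agent.LibSq57

open Metric Set Filter Topology

/-- a point at distance r from y and from t, close to q -/
noncomputable def ctr (r : ℝ) (q y t : E3) : E3 :=
  (1 / 2 : ℝ) • (y + t) + Real.sqrt (r ^ 2 - ‖t - y‖ ^ 2 / 4) •
    (‖(q - (1 / 2 : ℝ) • (y + t)) - (inner ℝ (q - (1 / 2 : ℝ) • (y + t)) (t - y) / ‖t - y‖ ^ 2) • (t - y)‖⁻¹ •
      ((q - (1 / 2 : ℝ) • (y + t)) - (inner ℝ (q - (1 / 2 : ℝ) • (y + t)) (t - y) / ‖t - y‖ ^ 2) • (t - y)))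

/-- the direction vector in ctr -/
noncomputable def dirv (q y t : E3) : E3 :=
  (q - (1 / 2 : ℝ) • (y + t)) - (inner ℝ (q - (1 / 2 : ℝ) • (y + t)) (t - y) / ‖t - y‖ ^ 2) • (t - y)

lemma ctr_eq (r : ℝ) (q y t : E3) : ctr r q y t =
    (1 / 2 : ℝ) • (y + t) + Real.sqrt (r ^ 2 - ‖t - y‖ ^ 2 / 4) • (‖dirv q y t‖⁻¹ • dirv q y t) := rfl

lemma dirv_inner {q y t : E3} (hc : t - y ≠ 0) : inner ℝ (dirv q y t) (t - y) = (0 : ℝ) := by
  unfold dirv
  rw [inner_sub_left, inner_smul_left, real_inner_self_eq_norm_sq]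
  have : ‖t - y‖ ≠ 0 := norm_ne_zero_iff.2 hc
  simp only [conj_trivial]
  field_simp
  ring

lemma ctr_norm {r : ℝ} {q y t : E3} (hc : t - y ≠ 0) (he : dirv q y t ≠ 0)
    (hr : ‖t - y‖ ^ 2 / 4 ≤ r ^ 2) (hr0 : 0 ≤ r) :
    ‖y - ctr r q y t‖ = r ∧ ‖t - ctr r q y t‖ = r := by
  have hn : ‖dirv q y t‖ ≠ 0 := norm_ne_zero_iff.2 he
  set ê : E3 := ‖dirv q y t‖⁻¹ • dirv q y t with hê
  have h1 : ‖ê‖ = 1 := by
    rw [hê, norm_smul, norm_inv, norm_norm, inv_mul_cancel₀ hn]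
  have h2 : inner ℝ ê (t - y) = (0 : ℝ) := by
    rw [hê, inner_smul_left, dirv_inner hc, mul_zero]
  have h2' : inner ℝ (t - y) ê = (0 : ℝ) := by rw [real_inner_comm]; exact h2
  set s := Real.sqrt (r ^ 2 - ‖t - y‖ ^ 2 / 4) with hs
  have hs2 : s ^ 2 = r ^ 2 - ‖t - y‖ ^ 2 / 4 := Real.sq_sqrt (by linarith)
  have key : ∀ σ : ℝ, σ ^ 2 = 1 → ‖(σ / 2) • (t - y) - s • ê‖ = r := by
    intro σ hσ
    have : ‖(σ / 2) • (t - y) - s • ê‖ ^ 2 = r ^ 2 := by
      rw [← real_inner_self_eq_norm_sq, inner_sub_left, inner_sub_right, inner_sub_right]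
      simp only [inner_smul_left, inner_smul_right, h2, h2', real_inner_self_eq_norm_sq, h1,
        conj_trivial]
      have : (σ / 2) * (σ / 2 * ‖t - y‖ ^ 2) = σ ^ 2 * ‖t - y‖ ^ 2 / 4 := by ring
      nlinarith [this]
    exact (sq_eq_sq₀ (norm_nonneg _) hr0).1 this
  constructor
  · have : y - ctr r q y t = ((-1 : ℝ) / 2) • (t - y) - s • ê := by
      rw [ctr_eq]
      module
    rw [this]
    exact key (-1) (by norm_num)
  · have : t - ctr r q y t = ((1 : ℝ) / 2) • (t - y) - s • ê := by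
      rw [ctr_eq]
      module
    rw [this]
    exact key 1 (by norm_num)

lemma ctr_base {r : ℝ} {q y t : E3} (hy : ‖y - q‖ = r) (ht : ‖t - q‖ = r) (hc : t - y ≠ 0)
    (hlt : ‖t - y‖ < r) :
    dirv q y t = q - (1 / 2 : ℝ) • (y + t) ∧ dirv q y t ≠ 0 ∧ ctr r q y t = q := by
  have hr : 0 < r := lt_of_le_of_lt (norm_nonneg _) hlt
  have h0 : inner ℝ (q - (1 / 2 : ℝ) • (y + t)) (t - y) = (0 : ℝ) := by
    have e1 : q - (1 / 2 : ℝ) • (y + t) = (-(1 / 2 : ℝ)) • ((t - q) + (y - q)) := by module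
    have e2 : t - y = (t - q) - (y - q) := by abel
    have e3 : inner ℝ ((t - q) + (y - q)) ((t - q) - (y - q)) = (0 : ℝ) :=
      (real_inner_add_sub_eq_zero_iff _ _).2 (by rw [ht, hy])
    rw [e1, e2, inner_smul_left, e3, mul_zero]
  have h1 : dirv q y t = q - (1 / 2 : ℝ) • (y + t) := by
    unfold dirv
    rw [h0, zero_div, zero_smul, sub_zero]
  have h2 : ‖q - (1 / 2 : ℝ) • (y + t)‖ ^ 2 = r ^ 2 - ‖t - y‖ ^ 2 / 4 := by
    have e1 : y - q = (-(1 / 2 : ℝ)) • (t - y) - (q - (1 / 2 : ℝ) • (y + t)) := by module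
    have e2 : ‖y - q‖ ^ 2 = ‖t - y‖ ^ 2 / 4 + ‖q - (1 / 2 : ℝ) • (y + t)‖ ^ 2 := by
      rw [e1, @norm_sub_sq ℝ, norm_smul, inner_smul_left]
      simp only [RCLike.re_to_real]
      rw [real_inner_comm, h0]
      simp only [norm_neg, Real.norm_eq_abs, mul_zero]
      norm_num
      ring
    rw [hy] at e2
    linarith
  have h3 : 0 < ‖q - (1 / 2 : ℝ) • (y + t)‖ ^ 2 := by
    rw [h2]
    have : ‖t - y‖ ^ 2 < r ^ 2 := by
      have := norm_nonneg (t - y)
      nlinarith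
    nlinarith
  have h4 : q - (1 / 2 : ℝ) • (y + t) ≠ 0 := by
    intro h
    rw [h] at h3
    simp at h3
  refine ⟨h1, by rw [h1]; exact h4, ?_⟩
  rw [ctr_eq, h1, ← h2, Real.sqrt_sq (norm_nonneg _), smul_smul,
    mul_inv_cancel₀ (norm_ne_zero_iff.2 h4), one_smul]
  abel

lemma dirv_continuousAt {q y t : E3} (hc : t - y ≠ 0) :
    ContinuousAt (fun z : E3 × E3 => dirv q z.1 z.2) (y, t) := by
  unfold dirv
  have : ‖t - y‖ ^ 2 ≠ 0 := pow_ne_zero _ (norm_ne_zero_iff.2 hc)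
  fun_prop (disch := assumption)

lemma ctr_continuousAt {r : ℝ} {q y t : E3} (hc : t - y ≠ 0) (he : dirv q y t ≠ 0) :
    ContinuousAt (fun z : E3 × E3 => ctr r q z.1 z.2) (y, t) := by
  have h1 := dirv_continuousAt (q := q) hc
  have h2 : ContinuousAt (fun z : E3 × E3 => ‖dirv q z.1 z.2‖⁻¹ • dirv q z.1 z.2) (y, t) := by
    exact ((h1.norm).inv₀ (norm_ne_zero_iff.2 he)).smul h1
  have h3 : ContinuousAt (fun z : E3 × E3 => (1 / 2 : ℝ) • (z.1 + z.2)) (y, t) := by fun_prop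
  have h4 : ContinuousAt (fun z : E3 × E3 => Real.sqrt (r ^ 2 - ‖z.2 - z.1‖ ^ 2 / 4)) (y, t) := by
    fun_prop
  have := h3.add (h4.smul h2)
  exact this

/-- local step: from two differently coloured points on a sphere to a wild point on a sphere with
generic centre -/
lemma step_sphere {U V : Set E3} (hU : IsOpen U) (hV : IsOpen V) (hd : Dense (U ∪ V))
    {q y t : E3} {r : ℝ} (hy : y ∈ U) (ht : t ∈ V) (hyr : ‖y - q‖ = r) (htr : ‖t - q‖ = r)
    (hlt : ‖t - y‖ < r) {ε : ℝ} (hε : 0 < ε) :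
    ∃ p ∈ closure U ∩ closure V, dist p y ≤ 2 * ‖t - y‖ + ε ∧
      ∃ q' ∈ U ∪ V, dist q' q < ε ∧ dist q' p = r := by
  have hnb : {q' : E3 | y + (q' - q) ∈ U ∧ t + (q' - q) ∈ V ∧ dist q' q < ε} ∈ 𝓝 q := by
    have h1 : ∀ᶠ q' in 𝓝 q, y + (q' - q) ∈ U := by
      have : ContinuousAt (fun q' : E3 => y + (q' - q)) q := by fun_prop
      exact this.eventually_mem (hU.mem_nhds (by simpa using hy))
    have h2 : ∀ᶠ q' in 𝓝 q, t + (q' - q) ∈ V := by
      have : ContinuousAt (fun q' : E3 => t + (q' - q)) q := by fun_prop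
      exact this.eventually_mem (hV.mem_nhds (by simpa using ht))
    have h3 : ∀ᶠ q' in 𝓝 q, dist q' q < ε := ball_mem_nhds q hε
    exact h1.and (h2.and h3)
  obtain ⟨q', ⟨h1, h2, h3⟩, hq'⟩ := mem_closure_iff_nhds.1 (hd q) _ hnb
  obtain ⟨C, hC, haC, hbC, hCp⟩ := exists_arc (a := y - q) (b := t - q) hyr htr
    (by rwa [sub_sub_sub_cancel_right])
  have hC' : IsPreconnected ((fun c => q' + c) '' C) := hC.image _ (by fun_prop)
  have hcov : (univ : Set E3) ⊆ closure U ∪ closure V := by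
    rw [← closure_union]
    exact fun x _ => hd x
  obtain ⟨p, ⟨c, hc, rfl⟩, hp⟩ := crossing hC' ((subset_univ _).trans hcov)
    ⟨q' + (y - q), ⟨y - q, haC, rfl⟩, subset_closure (by convert h1 using 1; abel)⟩
    ⟨q' + (t - q), ⟨t - q, hbC, rfl⟩, subset_closure (by convert h2 using 1; abel)⟩
  obtain ⟨hc1, hc2, -⟩ := hCp c hc
  refine ⟨q' + c, hp, ?_, q', hq', h3, ?_⟩
  · rw [dist_eq_norm]
    have : q' + c - y = (c - (y - q)) + (q' - q) := by abel
    rw [this]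
    refine (norm_add_le _ _).trans ?_
    rw [sub_sub_sub_cancel_right] at hc2
    rw [dist_eq_norm] at h3
    linarith
  · rw [dist_eq_norm]
    have : q' - (q' + c) = -c := by abel
    rw [this, norm_neg]
    exact hc1

lemma dense_sphere {U V : Set E3} (hU : IsOpen U) (hV : IsOpen V) (hd : Dense (U ∪ V))
    {r : ℝ} (hr : 0 < r) {p q : E3} (hp : p ∈ closure U ∩ closure V) (hpq : dist q p = r)
    {ε : ℝ} (hε : 0 < ε) :
    ∃ p' ∈ closure U ∩ closure V, dist p' p < ε ∧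
      ∃ q' ∈ U ∪ V, dist q' q < ε ∧ dist q' p' = r := by
  have hpr : ‖p - q‖ = r := by rw [← dist_eq_norm, dist_comm]; exact hpq
  -- second point t₀ on the sphere
  obtain ⟨e, he, hpe⟩ := exists_unit_perp (p - q)
  set κ : ℝ := min (ε / 32) (r / 8) with hκ
  have hκ0 : 0 < κ := lt_min (by linarith) (by linarith)
  have hκ1 : κ ≤ ε / 32 := min_le_left _ _
  have hκ2 : κ ≤ r / 8 := min_le_right _ _
  set z : E3 := (p - q) + κ • e with hz
  have hze : inner ℝ z e = κ := by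
    rw [hz, inner_add_left, hpe, inner_smul_left, real_inner_self_eq_norm_sq, he]
    simp
  have hz0 : z ≠ 0 := by
    intro h
    rw [h] at hze
    simp at hze
    linarith
  have hzn : 0 < ‖z‖ := norm_pos_iff.2 hz0
  set t₀ : E3 := q + (r / ‖z‖) • z with ht₀
  have ht₀r : ‖t₀ - q‖ = r := by
    rw [ht₀, add_sub_cancel_left, norm_smul, Real.norm_eq_abs, abs_div, abs_norm,
      div_mul_cancel₀ _ hzn.ne', abs_of_pos hr]
  have ht₀p : ‖t₀ - p‖ ≤ 2 * κ := by
    have : t₀ - p = (r / ‖z‖) • z - (p - q) := by rw [ht₀]; abel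
    rw [this]
    refine (normalize_close hpr hz0).trans ?_
    have : z - (p - q) = κ • e := by rw [hz]; abel
    rw [this, norm_smul, he, Real.norm_eq_abs, abs_of_pos hκ0, mul_one]
  have hne : t₀ - p ≠ 0 := by
    intro h
    have h1 : t₀ - p = (r / ‖z‖) • z - (p - q) := by rw [ht₀]; abel
    rw [h1] at h
    have h2 : inner ℝ ((r / ‖z‖) • z - (p - q)) e = (0 : ℝ) := by rw [h]; simp
    rw [inner_sub_left, hpe, inner_smul_left, hze] at h2
    simp only [conj_trivial, sub_zero, mul_eq_zero, div_eq_zero_iff] at h2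
    rcases h2 with (h2 | h2) | h2 <;> linarith
  have hltr : ‖t₀ - p‖ < r := by linarith
  obtain ⟨hb1, hb2, hb3⟩ := ctr_base hpr ht₀r hne hltr
  have hcont := ctr_continuousAt (r := r) hne hb2
  have hcontd := dirv_continuousAt (q := q) hne
  have hev : ∀ᶠ w : E3 × E3 in 𝓝 (p, t₀), dist (ctr r q w.1 w.2) q < ε / 2 ∧
      dirv q w.1 w.2 ≠ 0 ∧ w.2 - w.1 ≠ 0 ∧ ‖w.2 - w.1‖ < 3 * κ ∧ dist w.1 p < ε / 8 ∧
      dist w.2 p < ε / 8 := by
    have e1 : ∀ᶠ w : E3 × E3 in 𝓝 (p, t₀), dist (ctr r q w.1 w.2) q < ε / 2 := by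
      have h : ∀ᶠ w : E3 × E3 in 𝓝 (p, t₀), ctr r q w.1 w.2 ∈ ball q (ε / 2) := by
        apply hcont.eventually_mem
        simp only
        rw [hb3]
        exact ball_mem_nhds _ (by linarith)
      exact h
    have e2 : ∀ᶠ w : E3 × E3 in 𝓝 (p, t₀), dirv q w.1 w.2 ≠ 0 := hcontd.eventually_ne hb2
    have e3 : ∀ᶠ w : E3 × E3 in 𝓝 (p, t₀), w.2 - w.1 ≠ 0 := by
      have : ContinuousAt (fun w : E3 × E3 => w.2 - w.1) (p, t₀) := by fun_prop
      exact this.eventually_ne hne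
    have e4 : ∀ᶠ w : E3 × E3 in 𝓝 (p, t₀), ‖w.2 - w.1‖ < 3 * κ := by
      have : ContinuousAt (fun w : E3 × E3 => ‖w.2 - w.1‖) (p, t₀) := by fun_prop
      exact this.eventually_lt continuousAt_const (by simp only; linarith)
    have e5 : ∀ᶠ w : E3 × E3 in 𝓝 (p, t₀), dist w.1 p < ε / 8 := by
      have : ContinuousAt (fun w : E3 × E3 => dist w.1 p) (p, t₀) := by fun_prop
      exact this.eventually_lt continuousAt_const (by simp only [dist_self]; linarith)
    have e6 : ∀ᶠ w : E3 × E3 in 𝓝 (p, t₀), dist w.2 p < ε / 8 := by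
      have : ContinuousAt (fun w : E3 × E3 => dist w.2 p) (p, t₀) := by fun_prop
      refine this.eventually_lt continuousAt_const ?_
      simp only
      rw [dist_eq_norm]
      linarith
    exact e1.and (e2.and (e3.and (e4.and (e5.and e6))))
  rw [nhds_prod_eq, eventually_prod_iff] at hev
  obtain ⟨P, hP, Q, hQ, hPQ⟩ := hev
  obtain ⟨t, htQ, htW⟩ := mem_closure_iff_nhds.1 (hd t₀) _ hQ
  have main : ∀ {A B : Set E3}, IsOpen A → IsOpen B → Dense (A ∪ B) → t ∈ B → p ∈ closure A →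
      ∃ p' ∈ closure A ∩ closure B, dist p' p < ε ∧
      ∃ q' ∈ A ∪ B, dist q' q < ε ∧ dist q' p' = r := by
    intro A B hA hB hAB htB hpA
    obtain ⟨y, hyP, hyA⟩ := mem_closure_iff_nhds.1 hpA _ hP
    obtain ⟨f1, f2, f3, f4, f5, f6⟩ := hPQ hyP htQ
    simp only at f1 f2 f3 f4 f5 f6
    have hle : ‖t - y‖ ^ 2 / 4 ≤ r ^ 2 := by
      have := norm_nonneg (t - y)
      nlinarith
    obtain ⟨g1, g2⟩ := ctr_norm f3 f2 hle hr.le
    obtain ⟨p', hp', hd1, q', hq', hd2, hd3⟩ := step_sphere hA hB hAB hyA htB g1 g2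
      (by linarith) (ε := ε / 2) (by linarith)
    refine ⟨p', hp', ?_, q', hq', ?_, hd3⟩
    · calc dist p' p ≤ dist p' y + dist y p := dist_triangle _ _ _
        _ < ε := by linarith
    · calc dist q' q ≤ dist q' (ctr r q y t) + dist (ctr r q y t) q := dist_triangle _ _ _
        _ < ε := by linarith
  rcases htW with htU | htV
  · have := main hV hU (by rwa [union_comm]) htU hp.2
    rwa [inter_comm, union_comm] at this
  · exact main hU hV hd htV hp.1

/-- Stage 1: a wild point p near a given one such that the colours are dense in the given spheres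
around p. -/
theorem stage1 {U V : Set E3} (hU : IsOpen U) (hV : IsOpen V) (hd : Dense (U ∪ V))
    {ι : Type} [Countable ι] (ρ : ι → ℝ) (hρ : ∀ i, 0 < ρ i) {p₀ : E3}
    (hp₀ : p₀ ∈ closure U ∩ closure V) {r : ℝ} (hr : 0 < r) :
    ∃ p ∈ closure U ∩ closure V, dist p p₀ < r ∧
      ∀ i q, dist q p = ρ i → ∀ ε > 0, ∃ q' ∈ U ∪ V, dist q' q < ε ∧ dist q' p = ρ i := by
  refine generic_point (ι := ι) (closure U ∩ closure V) (isClosed_closure.inter isClosed_closure)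
    (U ∪ V) (fun i p q => dist q p = ρ i) ?_ (hU.union hV) ?_ p₀ hp₀ r hr
  · intro i p q hp hR O hO hqO
    have : ∀ᶠ p' in 𝓝 p, q + (p' - p) ∈ O := by
      have : ContinuousAt (fun p' : E3 => q + (p' - p)) p := by fun_prop
      exact this.eventually_mem (hO.mem_nhds (by simpa using hqO))
    refine (this.filter_mono nhdsWithin_le_nhds).mono ?_
    intro p' hp'
    refine ⟨_, hp', ?_⟩
    change dist (q + (p' - p)) p' = ρ i
    rw [dist_eq_norm] at hR ⊢
    have : q + (p' - p) - p' = q - p := by abel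
    rw [this, hR]
  · intro i p q hp hR ε hε
    exact dense_sphere hU hV hd (hρ i) hp hR hε

end Pool.Agent.LibSq57
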