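import Pool.Agent.LibSq57.Basic

set_option autoImplicit false

namespace Pool.Agent.LibSq57

open Metric Set Filter Topology

/-- direction vector orthogonal to y and t, close to a given one -/
noncomputable def dirw (x y t : E3) : E3 :=
  x - (inner ℝ x (y + t) / ‖y + t‖ ^ 2) • (y + t) - (inner ℝ x (t - y) / ‖t - y‖ ^ 2) • (t - y)

/-- a unit vector having inner product s with the unit vectors y and t, close to x -/
noncomputable def cir (s : ℝ) (x y t : E3) : E3 :=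
  (2 * s / ‖y + t‖ ^ 2) • (y + t) + Real.sqrt (1 - 4 * s ^ 2 / ‖y + t‖ ^ 2) •
    (‖dirw x y t‖⁻¹ • dirw x y t)

section
variable {x y t : E3}

lemma inner_add_sub_unit (hy : ‖y‖ = 1) (ht : ‖t‖ = 1) : inner ℝ (y + t) (t - y) = (0 : ℝ) := by
  have : y + t = t + y := add_comm _ _
  rw [this]
  exact (real_inner_add_sub_eq_zero_iff _ _).2 (by rw [ht, hy])

lemma dirw_inner_add (hy : ‖y‖ = 1) (ht : ‖t‖ = 1) (hm : y + t ≠ 0) :
    inner ℝ (dirw x y t) (y + t) = (0 : ℝ) := by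
  have h0 : inner ℝ (t - y) (y + t) = (0 : ℝ) := by
    rw [real_inner_comm]; exact inner_add_sub_unit hy ht
  have : ‖y + t‖ ≠ 0 := norm_ne_zero_iff.2 hm
  unfold dirw
  rw [inner_sub_left, inner_sub_left, inner_smul_left, inner_smul_left, h0,
    real_inner_self_eq_norm_sq]
  simp only [conj_trivial]
  field_simp
  ring

lemma dirw_inner_sub (hy : ‖y‖ = 1) (ht : ‖t‖ = 1) (hc : t - y ≠ 0) :
    inner ℝ (dirw x y t) (t - y) = (0 : ℝ) := by
  have h0 : inner ℝ (y + t) (t - y) = (0 : ℝ) := inner_add_sub_unit hy ht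
  have : ‖t - y‖ ≠ 0 := norm_ne_zero_iff.2 hc
  unfold dirw
  rw [inner_sub_left, inner_sub_left, inner_smul_left, inner_smul_left, h0,
    real_inner_self_eq_norm_sq]
  simp only [conj_trivial]
  field_simp
  ring

lemma dirw_inner_left (hy : ‖y‖ = 1) (ht : ‖t‖ = 1) (hm : y + t ≠ 0) (hc : t - y ≠ 0) :
    inner ℝ (dirw x y t) y = (0 : ℝ) := by
  have e : y = (1 / 2 : ℝ) • ((y + t) - (t - y)) := by module
  have : inner ℝ (dirw x y t) ((1 / 2 : ℝ) • ((y + t) - (t - y))) = (0 : ℝ) := by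
    rw [inner_smul_right, inner_sub_right, dirw_inner_add hy ht hm, dirw_inner_sub hy ht hc]
    ring
  rwa [← e] at this

lemma dirw_inner_right (hy : ‖y‖ = 1) (ht : ‖t‖ = 1) (hm : y + t ≠ 0) (hc : t - y ≠ 0) :
    inner ℝ (dirw x y t) t = (0 : ℝ) := by
  have e : t = (1 / 2 : ℝ) • ((y + t) + (t - y)) := by module
  have : inner ℝ (dirw x y t) ((1 / 2 : ℝ) • ((y + t) + (t - y))) = (0 : ℝ) := by
    rw [inner_smul_right, inner_add_right, dirw_inner_add hy ht hm, dirw_inner_sub hy ht hc]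
    ring
  rwa [← e] at this

lemma norm_add_sq_unit (hy : ‖y‖ = 1) (ht : ‖t‖ = 1) : ‖y + t‖ ^ 2 = 2 + 2 * inner ℝ y t := by
  rw [@norm_add_sq ℝ, hy, ht]
  simp only [RCLike.re_to_real]
  ring

lemma norm_sub_sq_unit (hy : ‖y‖ = 1) (ht : ‖t‖ = 1) : ‖t - y‖ ^ 2 = 2 - 2 * inner ℝ y t := by
  rw [@norm_sub_sq ℝ, hy, ht, real_inner_comm]
  simp only [RCLike.re_to_real]
  ring

lemma cir_props {s : ℝ} (hy : ‖y‖ = 1) (ht : ‖t‖ = 1) (hm : y + t ≠ 0) (hc : t - y ≠ 0)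
    (he : dirw x y t ≠ 0) (hs : 4 * s ^ 2 ≤ ‖y + t‖ ^ 2) :
    ‖cir s x y t‖ = 1 ∧ inner ℝ (cir s x y t) y = s ∧ inner ℝ (cir s x y t) t = s := by
  have hmn : ‖y + t‖ ≠ 0 := norm_ne_zero_iff.2 hm
  have hn : ‖dirw x y t‖ ≠ 0 := norm_ne_zero_iff.2 he
  have hyy : inner ℝ y y = (1 : ℝ) := by rw [real_inner_self_eq_norm_sq, hy]; norm_num
  have htt : inner ℝ t t = (1 : ℝ) := by rw [real_inner_self_eq_norm_sq, ht]; norm_num
  have hsq := norm_add_sq_unit hy ht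
  have hly := dirw_inner_left (x := x) hy ht hm hc
  have hlt := dirw_inner_right (x := x) hy ht hm hc
  have hlm := dirw_inner_add (x := x) hy ht hm
  have hnn : ‖‖dirw x y t‖⁻¹ • dirw x y t‖ = 1 := by
    rw [norm_smul, norm_inv, norm_norm, inv_mul_cancel₀ hn]
  have hpos : 0 ≤ 1 - 4 * s ^ 2 / ‖y + t‖ ^ 2 := by
    rw [sub_nonneg]
    exact div_le_one_of_le₀ hs (by positivity)
  refine ⟨?_, ?_, ?_⟩
  · have : ‖cir s x y t‖ ^ 2 = 1 := by
      unfold cir
      rw [@norm_add_sq ℝ, norm_smul, norm_smul, hnn, inner_smul_left, inner_smul_right,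
        inner_smul_right, real_inner_comm, hlm]
      simp only [RCLike.re_to_real, mul_zero, add_zero, mul_one, mul_pow, Real.norm_eq_abs, sq_abs]
      rw [Real.sq_sqrt hpos]
      field_simp
      ring
    have h0 := norm_nonneg (cir s x y t)
    nlinarith
  · unfold cir
    rw [inner_add_left, inner_smul_left, inner_smul_left, inner_smul_left, hly, inner_add_left,
      hyy, real_inner_comm y t, hsq]
    simp only [conj_trivial, mul_zero, add_zero]
    have h7 : (1 + (inner ℝ y t : ℝ)) ≠ 0 := by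
      intro h7
      have h8 : ‖y + t‖ ^ 2 = 0 := by rw [hsq]; linarith
      exact hmn (pow_eq_zero_iff (two_ne_zero)|>.1 h8)
    have h9 : 2 + 2 * (inner ℝ y t : ℝ) = 2 * (1 + (inner ℝ y t : ℝ)) := by ring
    rw [h9]
    field_simp
  · unfold cir
    rw [inner_add_left, inner_smul_left, inner_smul_left, inner_smul_left, hlt, inner_add_left,
      htt, hsq]
    simp only [conj_trivial, mul_zero, add_zero]
    have h7 : (1 + (inner ℝ y t : ℝ)) ≠ 0 := by
      intro h7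
      have h8 : ‖y + t‖ ^ 2 = 0 := by rw [hsq]; linarith
      exact hmn (pow_eq_zero_iff (two_ne_zero)|>.1 h8)
    have h9 : 2 + 2 * (inner ℝ y t : ℝ) = 2 * (1 + (inner ℝ y t : ℝ)) := by ring
    rw [h9]
    field_simp
    ring

lemma cir_base {s : ℝ} (hx : ‖x‖ = 1) (hy : ‖y‖ = 1) (ht : ‖t‖ = 1)
    (hxy : inner ℝ x y = s) (hxt : inner ℝ x t = s) (hs : 4 * s ^ 2 < ‖y + t‖ ^ 2) :
    y + t ≠ 0 ∧ dirw x y t ≠ 0 ∧ cir s x y t = x := by
  have hm : y + t ≠ 0 := by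
    intro h
    rw [h] at hs
    simp at hs
    nlinarith [sq_nonneg s]
  have hmn : ‖y + t‖ ≠ 0 := norm_ne_zero_iff.2 hm
  have h1 : inner ℝ x (y + t) = 2 * s := by rw [inner_add_right, hxy, hxt]; ring
  have h2 : inner ℝ x (t - y) = (0 : ℝ) := by rw [inner_sub_right, hxy, hxt]; ring
  have h3 : dirw x y t = x - (2 * s / ‖y + t‖ ^ 2) • (y + t) := by
    unfold dirw
    rw [h1, h2, zero_div, zero_smul, sub_zero]
  have h4 : ‖dirw x y t‖ ^ 2 = 1 - 4 * s ^ 2 / ‖y + t‖ ^ 2 := by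
    rw [h3, @norm_sub_sq ℝ, inner_smul_right, h1, norm_smul, hx]
    simp only [RCLike.re_to_real, mul_pow, Real.norm_eq_abs, sq_abs]
    field_simp
    ring
  have h5 : 0 < 1 - 4 * s ^ 2 / ‖y + t‖ ^ 2 := by
    rw [sub_pos, div_lt_one (by positivity)]
    exact hs
  have h6 : dirw x y t ≠ 0 := by
    intro h
    rw [h] at h4
    simp at h4
    linarith
  refine ⟨hm, h6, ?_⟩
  unfold cir
  rw [← h4, Real.sqrt_sq (norm_nonneg _), smul_smul, mul_inv_cancel₀ (norm_ne_zero_iff.2 h6),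
    one_smul, h3]
  abel

lemma dirw_continuousAt (hm : y + t ≠ 0) (hc : t - y ≠ 0) :
    ContinuousAt (fun z : E3 × E3 => dirw x z.1 z.2) (y, t) := by
  unfold dirw
  have h1 : ‖t - y‖ ^ 2 ≠ 0 := pow_ne_zero _ (norm_ne_zero_iff.2 hc)
  have h2 : ‖y + t‖ ^ 2 ≠ 0 := pow_ne_zero _ (norm_ne_zero_iff.2 hm)
  fun_prop (disch := assumption)

lemma cir_continuousAt {s : ℝ} (hm : y + t ≠ 0) (hc : t - y ≠ 0) (he : dirw x y t ≠ 0) :
    ContinuousAt (fun z : E3 × E3 => cir s x z.1 z.2) (y, t) := by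
  have h1 := dirw_continuousAt (x := x) hm hc
  have h2 : ContinuousAt (fun z : E3 × E3 => ‖dirw x z.1 z.2‖⁻¹ • dirw x z.1 z.2) (y, t) :=
    ((h1.norm).inv₀ (norm_ne_zero_iff.2 he)).smul h1
  have hm2 : ‖y + t‖ ^ 2 ≠ 0 := pow_ne_zero _ (norm_ne_zero_iff.2 hm)
  have h3 : ContinuousAt (fun z : E3 × E3 => (2 * s / ‖z.1 + z.2‖ ^ 2) • (z.1 + z.2)) (y, t) := by
    fun_prop (disch := assumption)
  have h4 : ContinuousAt (fun z : E3 × E3 => Real.sqrt (1 - 4 * s ^ 2 / ‖z.1 + z.2‖ ^ 2)) (y, t) := by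
    fun_prop (disch := assumption)
  exact h3.add (h4.smul h2)

end

/-- the part of a set on the unit sphere -/
def sph (U : Set E3) : Set E3 := {x | ‖x‖ = 1 ∧ x ∈ U}

/-- on the unit sphere the union is dense -/
def DenseSph (W : Set E3) : Prop := ∀ x : E3, ‖x‖ = 1 → x ∈ closure (sph W)

lemma norm_of_closure {U : Set E3} {u : E3} (hu : u ∈ closure (sph U)) : ‖u‖ = 1 := by
  have hcl : IsClosed {x : E3 | ‖x‖ = 1} := isClosed_eq continuous_norm continuous_const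
  exact closure_minimal (fun x hx => hx.1) hcl hu

lemma sph_union (U V : Set E3) : sph (U ∪ V) = sph U ∪ sph V := by
  ext x
  simp only [sph, mem_ofPred_eq, mem_union]
  tauto

lemma step_circle {U V : Set E3} (hU : IsOpen U) (hV : IsOpen V) (hd : DenseSph (U ∪ V))
    {x y t : E3} {s : ℝ} (hs : s ^ 2 < 1) (hy : y ∈ sph U) (ht : t ∈ sph V) (hx : ‖x‖ = 1)
    (hxy : inner ℝ x y = s) (hxt : inner ℝ x t = s) (hlt : ‖t - y‖ < Real.sqrt (1 - s ^ 2))
    {ε : ℝ} (hε : 0 < ε) :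
    ∃ u ∈ closure (sph U) ∩ closure (sph V), dist u y ≤ 2 * ‖t - y‖ + ε ∧
      ∃ x' ∈ U ∪ V, dist x' x < ε ∧ ‖x'‖ = 1 ∧ inner ℝ x' u = s := by
  have hnb : ∀ᶠ x' in 𝓝 x, 1 + inner ℝ x x' ≠ (0 : ℝ) ∧ rotv x x' y ∈ U ∧ rotv x x' t ∈ V ∧
      dist (rotv x x' y) y < ε ∧ dist x' x < ε := by
    refine (rotv_ne hx).and (((rotv_tendsto hx y).eventually_mem (hU.mem_nhds hy.2)).and
      (((rotv_tendsto hx t).eventually_mem (hV.mem_nhds ht.2)).and
      (((rotv_tendsto hx y).eventually_mem (ball_mem_nhds y hε)).and (ball_mem_nhds x hε))))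
  obtain ⟨x', ⟨h0, h1, h2, h3, h4⟩, hx', hx'W⟩ := mem_closure_iff_nhds.1 (hd x hx) _ hnb
  set y' := rotv x x' y with hy'
  set t' := rotv x x' t with ht'
  have hxx' : rotv x x' x = x' := rotv_self hx h0
  have iy : inner ℝ x' y' = s := by
    have := rotv_inner hx hx' h0 x y
    rw [hxx'] at this
    exact this.trans hxy
  have it : inner ℝ x' t' = s := by
    have := rotv_inner hx hx' h0 x t
    rw [hxx'] at this
    exact this.trans hxt
  have ny : ‖y'‖ = 1 := by rw [hy', rotv_norm hx hx' h0]; exact hy.1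
  have nt : ‖t'‖ = 1 := by rw [ht', rotv_norm hx hx' h0]; exact ht.1
  have hsub : ‖t' - y'‖ = ‖t - y‖ := by
    have : t' - y' = rotv x x' (t - y) := by
      rw [ht', hy', sub_eq_add_neg t y, rotv_add]
      have : -y = (-1 : ℝ) • y := by module
      rw [this, rotv_smul]
      module
    rw [this, rotv_norm hx hx' h0]
  set ρ := Real.sqrt (1 - s ^ 2) with hρ
  have hρ2 : ρ ^ 2 = 1 - s ^ 2 := Real.sq_sqrt (by linarith)
  have hρ0 : 0 ≤ ρ := Real.sqrt_nonneg _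
  have hnorm : ∀ w : E3, ‖w‖ = 1 → inner ℝ x' w = s → ‖w - s • x'‖ = ρ := by
    intro w hw hxw
    have : ‖w - s • x'‖ ^ 2 = ρ ^ 2 := by
      rw [@norm_sub_sq ℝ, hw, inner_smul_right, norm_smul, hx', real_inner_comm, hxw, hρ2]
      simp only [RCLike.re_to_real, mul_pow, Real.norm_eq_abs, sq_abs]
      ring
    exact (sq_eq_sq₀ (norm_nonneg _) hρ0).1 this
  obtain ⟨C, hC, haC, hbC, hCp⟩ := exists_arc (hnorm y' ny iy) (hnorm t' nt it)
    (by rw [sub_sub_sub_cancel_right, hsub]; exact hlt)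
  have hperp : ∀ w : E3, inner ℝ x' w = s → inner ℝ (w - s • x') x' = (0 : ℝ) := by
    intro w hw
    rw [inner_sub_left, inner_smul_left, real_inner_self_eq_norm_sq, hx', real_inner_comm, hw]
    simp
  have hCi : ∀ c ∈ C, inner ℝ c x' = (0 : ℝ) := fun c hc =>
    (hCp c hc).2.2 x' (hperp y' iy) (hperp t' it)
  have hCn : ∀ c ∈ C, ‖s • x' + c‖ = 1 := by
    intro c hc
    have : ‖s • x' + c‖ ^ 2 = 1 := by
      rw [@norm_add_sq ℝ, inner_smul_left, real_inner_comm, hCi c hc, norm_smul, hx',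
        (hCp c hc).1, hρ2]
      simp only [RCLike.re_to_real, mul_pow, Real.norm_eq_abs, sq_abs]
      ring
    have h0 := norm_nonneg (s • x' + c)
    nlinarith
  have hC' : IsPreconnected ((fun c => s • x' + c) '' C) := hC.image _ (by fun_prop)
  have hcov : ((fun c => s • x' + c) '' C) ⊆ closure (sph U) ∪ closure (sph V) := by
    rintro _ ⟨c, hc, rfl⟩
    rw [← closure_union, ← sph_union]
    exact hd _ (hCn c hc)
  obtain ⟨u, ⟨c, hc, rfl⟩, hu⟩ := crossing hC' hcov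
    ⟨s • x' + (y' - s • x'), ⟨_, haC, rfl⟩, subset_closure (by
      rw [add_sub_cancel]; exact ⟨ny, h1⟩)⟩
    ⟨s • x' + (t' - s • x'), ⟨_, hbC, rfl⟩, subset_closure (by
      rw [add_sub_cancel]; exact ⟨nt, h2⟩)⟩
  refine ⟨s • x' + c, hu, ?_, x', hx'W, h4, hx', ?_⟩
  · have h5 := (hCp c hc).2.1
    rw [sub_sub_sub_cancel_right, hsub] at h5
    rw [dist_eq_norm] at h3 ⊢
    have : s • x' + c - y = (c - (y' - s • x')) + (y' - y) := by abel
    rw [this]
    refine (norm_add_le _ _).trans ?_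
    linarith
  · rw [inner_add_right, inner_smul_right, real_inner_self_eq_norm_sq, hx', real_inner_comm,
      hCi c hc]
    ring

lemma dense_circle {U V : Set E3} (hU : IsOpen U) (hV : IsOpen V) (hd : DenseSph (U ∪ V))
    {s : ℝ} (hs : s ^ 2 < 1) {u x : E3} (hu : u ∈ closure (sph U) ∩ closure (sph V))
    (hx : ‖x‖ = 1) (hxu : inner ℝ x u = s) {ε : ℝ} (hε : 0 < ε) :
    ∃ u' ∈ closure (sph U) ∩ closure (sph V), dist u' u < ε ∧
      ∃ x' ∈ U ∪ V, dist x' x < ε ∧ ‖x'‖ = 1 ∧ inner ℝ x' u' = s := by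
  have hun : ‖u‖ = 1 := norm_of_closure hu.1
  set r := Real.sqrt (1 - s ^ 2) with hr'
  have hr : 0 < r := Real.sqrt_pos.2 (by linarith)
  have hr2 : r ^ 2 = 1 - s ^ 2 := Real.sq_sqrt (by linarith)
  have hur : ‖u - s • x‖ = r := by
    have : ‖u - s • x‖ ^ 2 = r ^ 2 := by
      rw [@norm_sub_sq ℝ, hun, inner_smul_right, norm_smul, hx, real_inner_comm, hxu, hr2]
      simp only [RCLike.re_to_real, mul_pow, Real.norm_eq_abs, sq_abs]
      ring
    exact (sq_eq_sq₀ (norm_nonneg _) hr.le).1 this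
  have hux : inner ℝ (u - s • x) x = (0 : ℝ) := by
    rw [inner_sub_left, inner_smul_left, real_inner_self_eq_norm_sq, hx, real_inner_comm, hxu]
    simp
  obtain ⟨e, he, hxe, hue⟩ := exists_unit_perp₂ x (u - s • x)
  set κ : ℝ := min (ε / 32) (r / 8) with hκ
  have hκ0 : 0 < κ := lt_min (by linarith) (by linarith)
  have hκ1 : κ ≤ ε / 32 := min_le_left _ _
  have hκ2 : κ ≤ r / 8 := min_le_right _ _
  set z : E3 := (u - s • x) + κ • e with hz
  have hze : inner ℝ z e = κ := by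
    rw [hz, inner_add_left, hue, inner_smul_left, real_inner_self_eq_norm_sq, he]
    simp
  have hzx : inner ℝ x z = (0 : ℝ) := by
    rw [hz, inner_add_right, inner_smul_right, hxe, real_inner_comm, hux]
    simp
  have hz0 : z ≠ 0 := by
    intro h
    rw [h] at hze
    simp at hze
    linarith
  have hzn : 0 < ‖z‖ := norm_pos_iff.2 hz0
  set t₀ : E3 := s • x + (r / ‖z‖) • z with ht₀
  have ht₀x : inner ℝ x t₀ = s := by
    rw [ht₀, inner_add_right, inner_smul_right, inner_smul_right, hzx,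
      real_inner_self_eq_norm_sq, hx]
    ring
  have hzr : ‖(r / ‖z‖) • z‖ = r := by
    rw [norm_smul, Real.norm_eq_abs, abs_div, abs_norm, div_mul_cancel₀ _ hzn.ne', abs_of_pos hr]
  have ht₀n : ‖t₀‖ = 1 := by
    have : ‖t₀‖ ^ 2 = 1 := by
      rw [ht₀, @norm_add_sq ℝ, hzr, inner_smul_left, inner_smul_right, hzx, norm_smul, hx, hr2]
      simp only [RCLike.re_to_real, mul_pow, Real.norm_eq_abs, sq_abs]
      ring
    have h0 := norm_nonneg t₀
    nlinarith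
  have ht₀u : ‖t₀ - u‖ ≤ 2 * κ := by
    have : t₀ - u = (r / ‖z‖) • z - (u - s • x) := by rw [ht₀]; abel
    rw [this]
    refine (normalize_close hur hz0).trans ?_
    have : z - (u - s • x) = κ • e := by rw [hz]; abel
    rw [this, norm_smul, he, Real.norm_eq_abs, abs_of_pos hκ0, mul_one]
  have hne : t₀ - u ≠ 0 := by
    intro h
    have h1 : t₀ - u = (r / ‖z‖) • z - (u - s • x) := by rw [ht₀]; abel
    rw [h1] at h
    have h2 : inner ℝ ((r / ‖z‖) • z - (u - s • x)) e = (0 : ℝ) := by rw [h]; simp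
    rw [inner_sub_left, hue, inner_smul_left, hze] at h2
    simp only [conj_trivial, sub_zero, mul_eq_zero, div_eq_zero_iff] at h2
    rcases h2 with (h2 | h2) | h2 <;> linarith
  have hsum : ∀ a b : E3, ‖a‖ = 1 → ‖b‖ = 1 → ‖b - a‖ < 3 * κ → 4 * s ^ 2 < ‖a + b‖ ^ 2 := by
    intro a b ha hb hab
    have h1 := norm_add_sq_unit ha hb
    have h2 := norm_sub_sq_unit ha hb
    have h3 := norm_nonneg (b - a)
    nlinarith
  have hb0 := hsum u t₀ hun ht₀n (by linarith)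
  obtain ⟨hb1, hb2, hb3⟩ := cir_base hx hun ht₀n hxu ht₀x hb0
  have hcont := cir_continuousAt (s := s) hb1 hne hb2
  have hcontd := dirw_continuousAt (x := x) hb1 hne
  have hev : ∀ᶠ w : E3 × E3 in 𝓝 (u, t₀), dist (cir s x w.1 w.2) x < ε / 2 ∧
      dirw x w.1 w.2 ≠ 0 ∧ w.2 - w.1 ≠ 0 ∧ ‖w.2 - w.1‖ < 3 * κ ∧ dist w.1 u < ε / 8 ∧
      w.1 + w.2 ≠ 0 := by
    have e1 : ∀ᶠ w : E3 × E3 in 𝓝 (u, t₀), dist (cir s x w.1 w.2) x < ε / 2 := by
      have h : ∀ᶠ w : E3 × E3 in 𝓝 (u, t₀), cir s x w.1 w.2 ∈ ball x (ε / 2) := by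
        apply hcont.eventually_mem
        simp only
        rw [hb3]
        exact ball_mem_nhds _ (by linarith)
      exact h
    have e2 : ∀ᶠ w : E3 × E3 in 𝓝 (u, t₀), dirw x w.1 w.2 ≠ 0 := hcontd.eventually_ne hb2
    have e3 : ∀ᶠ w : E3 × E3 in 𝓝 (u, t₀), w.2 - w.1 ≠ 0 := by
      have : ContinuousAt (fun w : E3 × E3 => w.2 - w.1) (u, t₀) := by fun_prop
      exact this.eventually_ne hne
    have e4 : ∀ᶠ w : E3 × E3 in 𝓝 (u, t₀), ‖w.2 - w.1‖ < 3 * κ := by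
      have : ContinuousAt (fun w : E3 × E3 => ‖w.2 - w.1‖) (u, t₀) := by fun_prop
      exact this.eventually_lt continuousAt_const (by simp only; linarith)
    have e5 : ∀ᶠ w : E3 × E3 in 𝓝 (u, t₀), dist w.1 u < ε / 8 := by
      have : ContinuousAt (fun w : E3 × E3 => dist w.1 u) (u, t₀) := by fun_prop
      exact this.eventually_lt continuousAt_const (by simp only [dist_self]; linarith)
    have e6 : ∀ᶠ w : E3 × E3 in 𝓝 (u, t₀), w.1 + w.2 ≠ 0 := by
      have : ContinuousAt (fun w : E3 × E3 => w.1 + w.2) (u, t₀) := by fun_prop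
      exact this.eventually_ne hb1
    exact e1.and (e2.and (e3.and (e4.and (e5.and e6))))
  rw [nhds_prod_eq, eventually_prod_iff] at hev
  obtain ⟨P, hP, Q, hQ, hPQ⟩ := hev
  obtain ⟨t, htQ, htn, htW⟩ := mem_closure_iff_nhds.1 (hd t₀ ht₀n) _ hQ
  have main : ∀ {A B : Set E3}, IsOpen A → IsOpen B → DenseSph (A ∪ B) → t ∈ B →
      u ∈ closure (sph A) → ∃ u' ∈ closure (sph A) ∩ closure (sph B), dist u' u < ε ∧
      ∃ x' ∈ A ∪ B, dist x' x < ε ∧ ‖x'‖ = 1 ∧ inner ℝ x' u' = s := by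
    intro A B hA hB hAB htB huA
    obtain ⟨y, hyP, hyn, hyA⟩ := mem_closure_iff_nhds.1 huA _ hP
    obtain ⟨f1, f2, f3, f4, f5, f6⟩ := hPQ hyP htQ
    simp only at f1 f2 f3 f4 f5 f6
    obtain ⟨g0, g1, g2⟩ := cir_props hyn htn f6 f3 f2 (hsum y t hyn htn f4).le
    obtain ⟨u', hu', hd1, x', hx', hd2, hd3, hd4⟩ := step_circle hA hB hAB hs
      (⟨hyn, hyA⟩ : y ∈ sph A) (⟨htn, htB⟩ : t ∈ sph B) g0 g1 g2
      (by linarith) (ε := ε / 2) (by linarith)
    refine ⟨u', hu', ?_, x', hx', ?_, hd3, hd4⟩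
    · calc dist u' u ≤ dist u' y + dist y u := dist_triangle _ _ _
        _ < ε := by linarith
    · calc dist x' x ≤ dist x' (cir s x y t) + dist (cir s x y t) x := dist_triangle _ _ _
        _ < ε := by linarith
  rcases htW with htU | htV
  · have := main hV hU (by rwa [union_comm]) htU hu.2
    rwa [inter_comm, union_comm] at this
  · exact main hU hV hd htV hu.1

theorem stage2 {U V : Set E3} (hU : IsOpen U) (hV : IsOpen V) (hd : DenseSph (U ∪ V))
    {ι : Type} [Countable ι] (s : ι → ℝ) (hs : ∀ i, s i ^ 2 < 1) {u₀ : E3}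
    (hu₀ : u₀ ∈ closure (sph U) ∩ closure (sph V)) :
    ∃ u ∈ closure (sph U) ∩ closure (sph V), ∀ i x, ‖x‖ = 1 → inner ℝ x u = s i → ∀ ε > 0,
      ∃ x' ∈ U ∪ V, dist x' x < ε ∧ ‖x'‖ = 1 ∧ inner ℝ x' u = s i := by
  have hopen : ∀ i u x, u ∈ closure (sph U) ∩ closure (sph V) → (‖x‖ = 1 ∧ inner ℝ x u = s i) →
      ∀ O : Set E3, IsOpen O → x ∈ O → ∀ᶠ u' in 𝓝[closure (sph U) ∩ closure (sph V)] u,
      ∃ x' ∈ O, ‖x'‖ = 1 ∧ inner ℝ x' u' = s i := by
    rintro i u x hu ⟨hx, hxu⟩ O hO hxO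
    have hun : ‖u‖ = 1 := norm_of_closure hu.1
    have h1 : ∀ᶠ u' in 𝓝 u, rotv u u' x ∈ O ∧ 1 + inner ℝ u u' ≠ (0 : ℝ) :=
      ((rotv_tendsto hun x).eventually_mem (hO.mem_nhds hxO)).and (rotv_ne hun)
    filter_upwards [h1.filter_mono nhdsWithin_le_nhds, self_mem_nhdsWithin] with u' h2 hu'
    have hun' : ‖u'‖ = 1 := norm_of_closure hu'.1
    refine ⟨rotv u u' x, h2.1, ?_, ?_⟩
    · rw [rotv_norm hun hun' h2.2]; exact hx
    · have : inner ℝ (rotv u u' x) (rotv u u' u) = s i := by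
        rw [rotv_inner hun hun' h2.2]; exact hxu
      rwa [rotv_self hun h2.2] at this
  have hdense : ∀ i u x, u ∈ closure (sph U) ∩ closure (sph V) → (‖x‖ = 1 ∧ inner ℝ x u = s i) →
      ∀ ε > 0, ∃ u' ∈ closure (sph U) ∩ closure (sph V), dist u' u < ε ∧
      ∃ x' ∈ U ∪ V, dist x' x < ε ∧ ‖x'‖ = 1 ∧ inner ℝ x' u' = s i := by
    rintro i u x hu ⟨hx, hxu⟩ ε hε
    exact dense_circle hU hV hd (hs i) hu hx hxu hε
  obtain ⟨u, hu, -, h⟩ := generic_point (ι := ι) (closure (sph U) ∩ closure (sph V))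
    (isClosed_closure.inter isClosed_closure)
    (U ∪ V) (fun i u x => ‖x‖ = 1 ∧ inner ℝ x u = s i) hopen (hU.union hV) hdense u₀ hu₀ 1 one_pos
  refine ⟨u, hu, ?_⟩
  intro i x hx hxu ε hε
  obtain ⟨x', h1, h2, h3, h4⟩ := h i x ⟨hx, hxu⟩ ε hε
  exact ⟨x', h1, h2, h3, h4⟩

end Pool.Agent.LibSq57
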