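import Pool.Agent.LibSq57.Stage1
import Pool.Agent.LibSq57.Stage2

set_option autoImplicit false

namespace Pool.Agent.LibSq57

open Metric Set Filter Topology

/-- no unit square with a corner near the origin has its four vertices in W -/
def NoSq (W : Set E3) : Prop :=
  ∀ q a b : E3, ‖q‖ < 3 / 2 → ‖a‖ = 1 → ‖b‖ = 1 → inner ℝ a b = (0 : ℝ) →
    q ∈ W → q + a ∈ W → q + b ∈ W → q + a + b ∈ W → False

/-- linear maps preserving the inner product -/
structure IsRot (T : E3 → E3) : Prop where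
  add : ∀ z w, T (z + w) = T z + T w
  smul : ∀ (a : ℝ) z, T (a • z) = a • T z
  inner : ∀ z w, inner ℝ (T z) (T w) = (inner ℝ z w : ℝ)

lemma IsRot.norm {T : E3 → E3} (h : IsRot T) (z : E3) : ‖T z‖ = ‖z‖ := by
  have := h.inner z z
  rw [real_inner_self_eq_norm_sq, real_inner_self_eq_norm_sq] at this
  exact (sq_eq_sq₀ (norm_nonneg _) (norm_nonneg _)).1 this

lemma IsRot.sub {T : E3 → E3} (h : IsRot T) (z w : E3) : T (z - w) = T z - T w := by
  have e : z - w = z + (-1 : ℝ) • w := by module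
  rw [e, h.add, h.smul]
  module

lemma IsRot.comp {T S : E3 → E3} (h : IsRot T) (h' : IsRot S) : IsRot (fun z => T (S z)) :=
  ⟨fun z w => by rw [h'.add, h.add], fun a z => by rw [h'.smul, h.smul],
    fun z w => by rw [h.inner, h'.inner]⟩

lemma isRot_id : IsRot (fun z => z) := ⟨fun _ _ => rfl, fun _ _ => rfl, fun _ _ => rfl⟩

lemma isRot_rotv {x y : E3} (hx : ‖x‖ = 1) (hy : ‖y‖ = 1) (h : 1 + inner ℝ x y ≠ 0) :
    IsRot (rotv x y) :=
  ⟨rotv_add x y, rotv_smul x y, rotv_inner hx hy h⟩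

lemma perturb {W : Set E3} (hW : IsOpen W) (hd : DenseSph W) (S : Finset E3)
    (hS : ∀ q ∈ S, ‖q‖ = 1) : ∃ T : E3 → E3, IsRot T ∧ ∀ q ∈ S, T q ∈ W := by
  classical
  induction S using Finset.induction_on with
  | empty => exact ⟨_, isRot_id, by simp⟩
  | insert q S hq ih =>
    obtain ⟨T, hT, hTS⟩ := ih (fun q hq => hS q (Finset.mem_insert_of_mem hq))
    have hqn : ‖T q‖ = 1 := by rw [hT.norm]; exact hS q (Finset.mem_insert_self _ _)
    have h1 : ∀ᶠ y in 𝓝 (T q), (∀ p ∈ S, rotv (T q) y (T p) ∈ W) ∧ 1 + inner ℝ (T q) y ≠ (0 : ℝ) := by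
      refine Filter.Eventually.and ?_ (rotv_ne hqn)
      rw [Finset.eventually_all]
      intro p hp
      exact (rotv_tendsto hqn (T p)).eventually_mem (hW.mem_nhds (hTS p hp))
    obtain ⟨y, ⟨h2, h3⟩, hy, hyW⟩ := mem_closure_iff_nhds.1 (hd (T q) hqn) _ h1
    refine ⟨fun z => rotv (T q) y (T z), (isRot_rotv hqn hy h3).comp hT, ?_⟩
    intro p hp
    rcases Finset.mem_insert.1 hp with rfl | hp
    · change rotv (T p) y (T p) ∈ W
      rw [rotv_self hqn h3]; exact hyW
    · exact h2 p hp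

local instance factFinrank3 : Fact (Module.finrank ℝ E3 = 2 + 1) := ⟨by simp⟩

lemma exists_frame' (u : E3) (hu : ‖u‖ = 1) :
    ∃ e₁ e₂ : E3, ‖e₁‖ = 1 ∧ ‖e₂‖ = 1 ∧ inner ℝ e₁ e₂ = (0 : ℝ) ∧ inner ℝ u e₁ = (0 : ℝ) ∧
      inner ℝ u e₂ = (0 : ℝ) ∧ ∀ x : E3, x = (inner ℝ u x : ℝ) • u + (inner ℝ e₁ x : ℝ) • e₁ +
        (inner ℝ e₂ x : ℝ) • e₂ := by
  have hw : u ≠ 0 := by
    intro h
    rw [h] at hu
    simp at hu
  have h2 : Module.finrank ℝ ((ℝ ∙ u)ᗮ : Submodule ℝ E3) = 2 :=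
    Submodule.finrank_orthogonal_span_singleton hw
  let b := (stdOrthonormalBasis ℝ ((ℝ ∙ u)ᗮ : Submodule ℝ E3)).reindex (finCongr h2)
  have hb := b.orthonormal
  have p0 : inner ℝ u (b 0 : E3) = (0 : ℝ) :=
    Submodule.mem_orthogonal_singleton_iff_inner_right.1 (b 0).2
  have p1 : inner ℝ u (b 1 : E3) = (0 : ℝ) :=
    Submodule.mem_orthogonal_singleton_iff_inner_right.1 (b 1).2
  refine ⟨(b 0 : E3), (b 1 : E3), hb.1 0, hb.1 1, hb.2 (show (0 : Fin 2) ≠ 1 by decide), p0, p1, ?_⟩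
  intro x
  have hmem : x - (inner ℝ u x : ℝ) • u ∈ (ℝ ∙ u)ᗮ := by
    rw [Submodule.mem_orthogonal_singleton_iff_inner_right, inner_sub_right, inner_smul_right,
      real_inner_self_eq_norm_sq, hu]
    ring
  have h3 := b.sum_repr' ⟨_, hmem⟩
  rw [Fin.sum_univ_two] at h3
  have h4 := congrArg (fun z : ((ℝ ∙ u)ᗮ : Submodule ℝ E3) => (z : E3)) h3
  simp only [Submodule.coe_add, Submodule.coe_smul, Submodule.coe_inner] at h4
  rw [inner_sub_right, inner_sub_right, inner_smul_right, inner_smul_right,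
    real_inner_comm u (b 0 : E3), real_inner_comm u (b 1 : E3), p0, p1, mul_zero, sub_zero,
    sub_zero] at h4
  rw [add_assoc, h4]
  abel

lemma sph_nonempty {U V : Set E3} (hU : IsOpen U) (nU : NoSq U) (hd : DenseSph (U ∪ V)) :
    (sph V).Nonempty := by
  by_contra hne
  rw [not_nonempty_iff_eq_empty] at hne
  have hd' : DenseSph U := by
    intro x hx
    have := hd x hx
    rwa [sph_union, hne, union_empty] at this
  obtain ⟨e₀, n0, -⟩ := exists_unit_perp (0 : E3)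
  obtain ⟨e₁, e₂, n1, n2, h12, h01, h02, -⟩ := exists_frame' e₀ n0
  have s2 : Real.sqrt 2 ^ 2 = 2 := Real.sq_sqrt (by norm_num)
  have i0 : inner ℝ e₀ e₀ = (1 : ℝ) := by rw [real_inner_self_eq_norm_sq, n0]; norm_num
  have i1 : inner ℝ e₁ e₁ = (1 : ℝ) := by rw [real_inner_self_eq_norm_sq, n1]; norm_num
  have i2 : inner ℝ e₂ e₂ = (1 : ℝ) := by rw [real_inner_self_eq_norm_sq, n2]; norm_num
  have h10 : inner ℝ e₁ e₀ = (0 : ℝ) := by rw [real_inner_comm]; exact h01
  have h20 : inner ℝ e₂ e₀ = (0 : ℝ) := by rw [real_inner_comm]; exact h02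
  have h21 : inner ℝ e₂ e₁ = (0 : ℝ) := by rw [real_inner_comm]; exact h12
  have key : ∀ a b : ℝ, a ^ 2 = 1 / 4 → b ^ 2 = 1 / 4 →
      ‖a • e₀ + b • e₁ + (Real.sqrt 2 / 2) • e₂‖ = 1 := by
    intro a b ha hb
    have : ‖a • e₀ + b • e₁ + (Real.sqrt 2 / 2) • e₂‖ ^ 2 = 1 := by
      rw [← real_inner_self_eq_norm_sq]
      simp only [inner_add_left, inner_add_right, inner_smul_left, inner_smul_right, i0, i1, i2,
        h01, h02, h12, h10, h20, h21, conj_trivial]
      nlinarith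
    have h0 := norm_nonneg (a • e₀ + b • e₁ + (Real.sqrt 2 / 2) • e₂)
    nlinarith
  set q : E3 := (-(1 / 2) : ℝ) • e₀ + (-(1 / 2) : ℝ) • e₁ + (Real.sqrt 2 / 2) • e₂ with hq
  have q0 : ‖q‖ = 1 := key _ _ (by norm_num) (by norm_num)
  have q1 : ‖q + e₀‖ = 1 := by
    have : q + e₀ = ((1 / 2) : ℝ) • e₀ + (-(1 / 2) : ℝ) • e₁ + (Real.sqrt 2 / 2) • e₂ := by
      rw [hq]; module
    rw [this]; exact key _ _ (by norm_num) (by norm_num)
  have q2 : ‖q + e₁‖ = 1 := by
    have : q + e₁ = (-(1 / 2) : ℝ) • e₀ + ((1 / 2) : ℝ) • e₁ + (Real.sqrt 2 / 2) • e₂ := by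
      rw [hq]; module
    rw [this]; exact key _ _ (by norm_num) (by norm_num)
  have q3 : ‖q + e₀ + e₁‖ = 1 := by
    have : q + e₀ + e₁ = ((1 / 2) : ℝ) • e₀ + ((1 / 2) : ℝ) • e₁ + (Real.sqrt 2 / 2) • e₂ := by
      rw [hq]; module
    rw [this]; exact key _ _ (by norm_num) (by norm_num)
  classical
  obtain ⟨T, hT, hTS⟩ := perturb hU hd' {q, q + e₀, q + e₁, q + e₀ + e₁} (by
    intro p hp
    simp only [Finset.mem_insert, Finset.mem_singleton] at hp
    rcases hp with rfl | rfl | rfl | rfl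
    · exact q0
    · exact q1
    · exact q2
    · exact q3)
  refine nU (T q) (T e₀) (T e₁) ?_ ?_ ?_ ?_ (hTS _ (by simp)) ?_ ?_ ?_
  · rw [hT.norm, q0]; norm_num
  · rw [hT.norm, n0]
  · rw [hT.norm, n1]
  · rw [hT.inner, h01]
  · rw [← hT.add]; exact hTS _ (by simp)
  · rw [← hT.add]; exact hTS _ (by simp)
  · rw [← hT.add, ← hT.add]; exact hTS _ (by simp)

lemma mixing {U V : Set E3} (hU : IsOpen U) (hV : IsOpen V) (nU : NoSq U) (nV : NoSq V)
    (h0U : (0 : E3) ∈ closure U) (h0V : (0 : E3) ∈ closure V)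
    (hd2 : ∀ x : E3, ‖x‖ = Real.sqrt 2 → ∀ ε > 0, ∃ x' ∈ U ∪ V, dist x' x < ε ∧ ‖x'‖ = Real.sqrt 2)
    {u v p m : E3} (huU : u ∈ closure (sph U)) (huV : u ∈ closure (sph V)) (hv : ‖v‖ = 1)
    (huv : inner ℝ u v = (0 : ℝ)) (hvW : v ∈ U ∪ V) (hp : ‖p‖ = 1) (hm : ‖m‖ = 1)
    (hpm : inner ℝ p m = (0 : ℝ)) (hup : inner ℝ u p = (1 / 2 : ℝ)) (hsum : p + m = u + v) :
    ¬ (p ∈ U ∧ m ∈ U) := by
  rintro ⟨hpU, hmU⟩
  have hu : ‖u‖ = 1 := norm_of_closure huU
  have iu : inner ℝ u u = (1 : ℝ) := by rw [real_inner_self_eq_norm_sq, hu]; norm_num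
  have iv : inner ℝ v v = (1 : ℝ) := by rw [real_inner_self_eq_norm_sq, hv]; norm_num
  have hum : inner ℝ u m = (1 / 2 : ℝ) := by
    have : m = u + v - p := by rw [← hsum]; abel
    rw [this, inner_sub_right, inner_add_right, iu, huv, hup]
    norm_num
  rcases hvW with hvU | hvV
  · have h1 : ∀ᶠ u' in 𝓝 u, rotv u u' v ∈ U ∧ rotv u u' p ∈ U ∧ rotv u u' m ∈ U ∧
        1 + inner ℝ u u' ≠ (0 : ℝ) :=
      ((rotv_tendsto hu v).eventually_mem (hU.mem_nhds hvU)).and
        (((rotv_tendsto hu p).eventually_mem (hU.mem_nhds hpU)).and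
        (((rotv_tendsto hu m).eventually_mem (hU.mem_nhds hmU)).and (rotv_ne hu)))
    obtain ⟨u', ⟨k1, k2, k3, k4⟩, hu'n, hu'U⟩ := mem_closure_iff_nhds.1 huU _ h1
    have hR := isRot_rotv hu hu'n k4
    have hRu : rotv u u' u = u' := rotv_self hu k4
    have e1 : ‖p - u‖ = 1 := by
      have : ‖p - u‖ ^ 2 = 1 := by
        rw [@norm_sub_sq ℝ, hp, hu, real_inner_comm, hup]
        norm_num
      have h0 := norm_nonneg (p - u)
      nlinarith
    have e2 : ‖m - u‖ = 1 := by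
      have : ‖m - u‖ ^ 2 = 1 := by
        rw [@norm_sub_sq ℝ, hm, hu, real_inner_comm, hum]
        norm_num
      have h0 := norm_nonneg (m - u)
      nlinarith
    have e3 : inner ℝ (p - u) (m - u) = (0 : ℝ) := by
      rw [inner_sub_left, inner_sub_right, inner_sub_right, hpm, hum, iu, real_inner_comm, hup]
      norm_num
    refine nU u' (rotv u u' (p - u)) (rotv u u' (m - u)) ?_ ?_ ?_ ?_ hu'U ?_ ?_ ?_
    · rw [hu'n]; norm_num
    · rw [hR.norm, e1]
    · rw [hR.norm, e2]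
    · rw [hR.inner, e3]
    · rw [hR.sub, hRu, add_sub_cancel]; exact k2
    · rw [hR.sub, hRu, add_sub_cancel]; exact k3
    · have : u' + rotv u u' (p - u) + rotv u u' (m - u) = rotv u u' v := by
        have hv' : v = u + (p - u) + (m - u) := by
          have : v = p + m - u := by rw [hsum]; abel
          rw [this]; abel
        conv_rhs => rw [hv']
        rw [hR.add, hR.add, hRu]
      rw [this]; exact k1
  · have h1 : ∀ᶠ u' in 𝓝 u, rotv u u' v ∈ V ∧ rotv u u' p ∈ U ∧ rotv u u' m ∈ U ∧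
        1 + inner ℝ u u' ≠ (0 : ℝ) :=
      ((rotv_tendsto hu v).eventually_mem (hV.mem_nhds hvV)).and
        (((rotv_tendsto hu p).eventually_mem (hU.mem_nhds hpU)).and
        (((rotv_tendsto hu m).eventually_mem (hU.mem_nhds hmU)).and (rotv_ne hu)))
    obtain ⟨u', ⟨k1, k2, k3, k4⟩, hu'n, hu'V⟩ := mem_closure_iff_nhds.1 huV _ h1
    have hR := isRot_rotv hu hu'n k4
    have hRu : rotv u u' u = u' := rotv_self hu k4
    have s2 : Real.sqrt 2 ^ 2 = 2 := Real.sq_sqrt (by norm_num)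
    have s20 : 0 < Real.sqrt 2 := Real.sqrt_pos.2 (by norm_num)
    set w' : E3 := u' + rotv u u' v with hw'
    have hw'e : w' = rotv u u' (u + v) := by rw [hw', hR.add, hRu]
    have hw'n : ‖w'‖ = Real.sqrt 2 := by
      have h5 : ‖u + v‖ ^ 2 = 2 := by
        rw [@norm_add_sq ℝ, hu, hv, huv]
        norm_num
      rw [hw'e, hR.norm]
      rw [← h5, Real.sqrt_sq (norm_nonneg _)]
    set ω : E3 := (Real.sqrt 2)⁻¹ • w' with hω
    have hωn : ‖ω‖ = 1 := by
      rw [hω, norm_smul, norm_inv, Real.norm_eq_abs, abs_of_pos s20, hw'n]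
      exact inv_mul_cancel₀ s20.ne'
    have hwω : w' = Real.sqrt 2 • ω := by rw [hω, smul_smul, mul_inv_cancel₀ s20.ne', one_smul]
    have hten : Tendsto (fun z : E3 => (Real.sqrt 2)⁻¹ • z) (𝓝 w') (𝓝 ω) := by
      have : ContinuousAt (fun z : E3 => (Real.sqrt 2)⁻¹ • z) w' := by fun_prop
      exact this.tendsto
    have h6 : ∀ᶠ z in 𝓝 ω, rotv ω z u' ∈ V ∧ rotv ω z (rotv u u' v) ∈ V ∧
        rotv ω z (rotv u u' p) ∈ U ∧ rotv ω z (rotv u u' m) ∈ U ∧ 1 + inner ℝ ω z ≠ (0 : ℝ) :=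
      ((rotv_tendsto hωn _).eventually_mem (hV.mem_nhds hu'V)).and
        (((rotv_tendsto hωn _).eventually_mem (hV.mem_nhds k1)).and
        (((rotv_tendsto hωn _).eventually_mem (hU.mem_nhds k2)).and
        (((rotv_tendsto hωn _).eventually_mem (hU.mem_nhds k3)).and (rotv_ne hωn))))
    have h7 := hten.eventually h6
    obtain ⟨ε, hε, h8⟩ := Metric.eventually_nhds_iff.1 h7
    obtain ⟨w, hwW, hwd, hwn⟩ := hd2 w' hw'n ε hε
    obtain ⟨l1, l2, l3, l4, l5⟩ := h8 hwd
    have hωwn : ‖(Real.sqrt 2)⁻¹ • w‖ = 1 := by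
      rw [norm_smul, norm_inv, Real.norm_eq_abs, abs_of_pos s20, hwn]
      exact inv_mul_cancel₀ s20.ne'
    have hS := isRot_rotv hωn hωwn l5
    set S := rotv ω ((Real.sqrt 2)⁻¹ • w) with hSdef
    have hSw : S w' = w := by
      rw [hwω, hS.smul, hSdef, rotv_self hωn l5, smul_smul, mul_inv_cancel₀ s20.ne', one_smul]
    have hC := hS.comp hR
    rcases hwW with hwU | hwV
    · have h9 : ∀ᶠ s : E3 in 𝓝 0, s + S (rotv u u' p) ∈ U ∧ s + S (rotv u u' m) ∈ U ∧ s + w ∈ U ∧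
          ‖s‖ < 3 / 2 := by
        refine Filter.Eventually.and ?_ (Filter.Eventually.and ?_ (Filter.Eventually.and ?_ ?_))
        · have : ContinuousAt (fun s : E3 => s + S (rotv u u' p)) 0 := by fun_prop
          exact this.eventually_mem (hU.mem_nhds (by simpa using l3))
        · have : ContinuousAt (fun s : E3 => s + S (rotv u u' m)) 0 := by fun_prop
          exact this.eventually_mem (hU.mem_nhds (by simpa using l4))
        · have : ContinuousAt (fun s : E3 => s + w) 0 := by fun_prop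
          exact this.eventually_mem (hU.mem_nhds (by simpa using hwU))
        · have : ContinuousAt (fun s : E3 => ‖s‖) 0 := by fun_prop
          exact this.eventually_lt continuousAt_const (by simp)
      obtain ⟨s, ⟨m1, m2, m3, m4⟩, hsU⟩ := mem_closure_iff_nhds.1 h0U _ h9
      refine nU s (S (rotv u u' p)) (S (rotv u u' m)) m4 ?_ ?_ ?_ hsU m1 m2 ?_
      · rw [hC.norm, hp]
      · rw [hC.norm, hm]
      · rw [hC.inner, hpm]
      · have : s + S (rotv u u' p) + S (rotv u u' m) = s + w := by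
          rw [add_assoc, ← hC.add, hsum, ← hw'e, hSw]
        rw [this]; exact m3
    · have h9 : ∀ᶠ s : E3 in 𝓝 0, s + S u' ∈ V ∧ s + S (rotv u u' v) ∈ V ∧ s + w ∈ V ∧
          ‖s‖ < 3 / 2 := by
        refine Filter.Eventually.and ?_ (Filter.Eventually.and ?_ (Filter.Eventually.and ?_ ?_))
        · have : ContinuousAt (fun s : E3 => s + S u') 0 := by fun_prop
          exact this.eventually_mem (hV.mem_nhds (by simpa using l1))
        · have : ContinuousAt (fun s : E3 => s + S (rotv u u' v)) 0 := by fun_prop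
          exact this.eventually_mem (hV.mem_nhds (by simpa using l2))
        · have : ContinuousAt (fun s : E3 => s + w) 0 := by fun_prop
          exact this.eventually_mem (hV.mem_nhds (by simpa using hwV))
        · have : ContinuousAt (fun s : E3 => ‖s‖) 0 := by fun_prop
          exact this.eventually_lt continuousAt_const (by simp)
      obtain ⟨s, ⟨m1, m2, m3, m4⟩, hsV⟩ := mem_closure_iff_nhds.1 h0V _ h9
      refine nV s (S u') (S (rotv u u' v)) m4 ?_ ?_ ?_ hsV m1 m2 ?_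
      · rw [hS.norm, hu'n]
      · rw [hC.norm, hv]
      · have : inner ℝ (rotv u u' u) (rotv u u' v) = (0 : ℝ) := by rw [hR.inner, huv]
        rw [hRu] at this
        rw [hS.inner, this]
      · have : s + S u' + S (rotv u u' v) = s + w := by
          rw [add_assoc, ← hS.add, ← hw', hSw]
        rw [this]; exact m3

/-- density along a circle, in terms of the angle -/
lemma circle_dense {W : Set E3} {u e₁ e₂ : E3} (hu : ‖u‖ = 1) (n1 : ‖e₁‖ = 1) (n2 : ‖e₂‖ = 1)
    (h12 : inner ℝ e₁ e₂ = (0 : ℝ)) (h1 : inner ℝ u e₁ = (0 : ℝ)) (h2 : inner ℝ u e₂ = (0 : ℝ))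
    (hspan : ∀ x : E3, x = (inner ℝ u x : ℝ) • u + (inner ℝ e₁ x : ℝ) • e₁ +
        (inner ℝ e₂ x : ℝ) • e₂) {s ρ : ℝ} (hρ : 0 < ρ) (hρs : ρ ^ 2 = 1 - s ^ 2)
    (hd : ∀ x : E3, ‖x‖ = 1 → inner ℝ x u = s → ∀ ε > 0, ∃ x' ∈ W, dist x' x < ε ∧ ‖x'‖ = 1 ∧
      inner ℝ x' u = s) :
    Dense {φ : ℝ | s • u + ρ • (Real.cos φ • e₁ + Real.sin φ • e₂) ∈ W} := by
  have i0 : inner ℝ u u = (1 : ℝ) := by rw [real_inner_self_eq_norm_sq, hu]; norm_num
  have i1 : inner ℝ e₁ e₁ = (1 : ℝ) := by rw [real_inner_self_eq_norm_sq, n1]; norm_num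
  have i2 : inner ℝ e₂ e₂ = (1 : ℝ) := by rw [real_inner_self_eq_norm_sq, n2]; norm_num
  have h10 : inner ℝ e₁ u = (0 : ℝ) := by rw [real_inner_comm]; exact h1
  have h20 : inner ℝ e₂ u = (0 : ℝ) := by rw [real_inner_comm]; exact h2
  have h21 : inner ℝ e₂ e₁ = (0 : ℝ) := by rw [real_inner_comm]; exact h12
  rw [Metric.dense_iff]
  intro φ ε hε
  have hcs := Real.cos_sq_add_sin_sq φ
  obtain ⟨η, hη, hη'⟩ : ∃ η > 0, ∀ S : ℝ, |S| < η → |Real.arcsin S| < ε := by
    have hc : ContinuousAt (fun S : ℝ => |Real.arcsin S|) 0 := by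
      have : Continuous (fun S : ℝ => |Real.arcsin S|) := Real.continuous_arcsin.abs
      exact this.continuousAt
    have : ∀ᶠ S : ℝ in 𝓝 0, |Real.arcsin S| < ε := hc.eventually_lt continuousAt_const (by simpa)
    obtain ⟨η, hη, h⟩ := Metric.eventually_nhds_iff.1 this
    exact ⟨η, hη, fun S hS => h (by simpa [Real.dist_eq] using hS)⟩
  set x : E3 := s • u + ρ • (Real.cos φ • e₁ + Real.sin φ • e₂) with hx
  have hxn : ‖x‖ = 1 := by
    have : ‖x‖ ^ 2 = 1 := by
      rw [← real_inner_self_eq_norm_sq, hx]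
      simp only [inner_add_left, inner_add_right, inner_smul_left, inner_smul_right, i0, i1, i2,
        h1, h2, h12, h10, h20, h21, conj_trivial]
      have : s * (s * 1) + ρ * (ρ * (Real.cos φ ^ 2 + Real.sin φ ^ 2)) = 1 := by
        rw [hcs]; linarith
      linarith
    have h0 := norm_nonneg x
    nlinarith
  have hxu : inner ℝ x u = s := by
    rw [hx]
    simp only [inner_add_left, inner_smul_left, i0, h10, h20, conj_trivial]
    ring
  obtain ⟨x', hx'W, hx'd, hx'n, hx'u⟩ := hd x hxn hxu (ρ * min η (1 / 2))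
    (mul_pos hρ (lt_min hη (by norm_num)))
  rw [dist_eq_norm] at hx'd
  set ν : E3 := Real.cos φ • e₁ + Real.sin φ • e₂ with hν
  set τ : E3 := Real.cos φ • e₂ - Real.sin φ • e₁ with hτ
  have hνn : ‖ν‖ = 1 := by
    have : ‖ν‖ ^ 2 = 1 := by
      rw [← real_inner_self_eq_norm_sq, hν]
      simp only [inner_add_left, inner_add_right, inner_smul_left, inner_smul_right, i1, i2,
        h12, h21, conj_trivial]
      linarith
    have h0 := norm_nonneg ν
    nlinarith
  have hτn : ‖τ‖ = 1 := by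
    have : ‖τ‖ ^ 2 = 1 := by
      rw [← real_inner_self_eq_norm_sq, hτ]
      simp only [inner_sub_left, inner_sub_right, inner_smul_left, inner_smul_right, i1, i2,
        h12, h21, conj_trivial]
      linarith
    have h0 := norm_nonneg τ
    nlinarith
  set C : ℝ := inner ℝ ν x' / ρ with hC
  set S : ℝ := inner ℝ τ x' / ρ with hS
  have hνx : inner ℝ ν x = ρ := by
    rw [hx, hν]
    simp only [inner_add_left, inner_add_right, inner_smul_left, inner_smul_right, i1, i2,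
        h12, h21, h10, h20, conj_trivial]
    have : ρ * (Real.cos φ ^ 2 + Real.sin φ ^ 2) = ρ := by rw [hcs]; ring
    linarith
  have hτx : inner ℝ τ x = (0 : ℝ) := by
    rw [hx, hν, hτ]
    simp only [inner_sub_left, inner_add_right, inner_smul_left, inner_smul_right, i1, i2,
        h12, h21, h10, h20, conj_trivial]
    ring
  have hSabs : |S| < min η (1 / 2) := by
    have e1 : |inner ℝ τ (x' - x)| ≤ ‖τ‖ * ‖x' - x‖ := abs_real_inner_le_norm _ _
    rw [hτn, one_mul, inner_sub_right, hτx, sub_zero] at e1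
    rw [hS, abs_div, abs_of_pos hρ, div_lt_iff₀ hρ]
    linarith
  have hCpos : 0 < C := by
    have e1 : |inner ℝ ν (x' - x)| ≤ ‖ν‖ * ‖x' - x‖ := abs_real_inner_le_norm _ _
    rw [hνn, one_mul, inner_sub_right, hνx] at e1
    have e2 := (abs_le.1 e1).1
    have e3 : min η (1 / 2) ≤ 1 / 2 := min_le_right _ _
    have e4 : ρ * min η (1 / 2) ≤ ρ * (1 / 2) := mul_le_mul_of_nonneg_left e3 hρ.le
    rw [hC]
    apply div_pos _ hρ
    linarith
  have hx'e : x' = s • u + ρ • (C • ν + S • τ) := by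
    have e0 := hspan x'
    rw [real_inner_comm, hx'u] at e0
    have c1 : ρ * C = Real.cos φ * inner ℝ e₁ x' + Real.sin φ * inner ℝ e₂ x' := by
      rw [hC, hν, inner_add_left, inner_smul_left, inner_smul_left]
      simp only [conj_trivial]
      field_simp
    have c2 : ρ * S = Real.cos φ * inner ℝ e₂ x' - Real.sin φ * inner ℝ e₁ x' := by
      rw [hS, hτ, inner_sub_left, inner_smul_left, inner_smul_left]
      simp only [conj_trivial]
      field_simp
    have c3 : ρ • (C • ν + S • τ) = (ρ * C) • ν + (ρ * S) • τ := by module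
    have c4 : (ρ * C) • ν + (ρ * S) • τ = (ρ * C * Real.cos φ - ρ * S * Real.sin φ) • e₁ +
        (ρ * C * Real.sin φ + ρ * S * Real.cos φ) • e₂ := by rw [hν, hτ]; module
    have c5 : ρ * C * Real.cos φ - ρ * S * Real.sin φ = inner ℝ e₁ x' := by
      rw [c1, c2]
      linear_combination (inner ℝ e₁ x' : ℝ) * hcs
    have c6 : ρ * C * Real.sin φ + ρ * S * Real.cos φ = inner ℝ e₂ x' := by
      rw [c1, c2]
      linear_combination (inner ℝ e₂ x' : ℝ) * hcs
    rw [c3, c4, c5, c6, ← add_assoc]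
    exact e0
  have hντ : inner ℝ ν τ = (0 : ℝ) := by
    rw [hν, hτ]
    simp only [inner_sub_right, inner_add_left, inner_smul_left, inner_smul_right, i1, i2,
        h12, h21, conj_trivial]
    ring
  have hCS : C ^ 2 + S ^ 2 = 1 := by
    have i0' : inner ℝ u ν = (0 : ℝ) := by
      rw [hν, inner_add_right, inner_smul_right, inner_smul_right, h1, h2]; ring
    have i0'' : inner ℝ u τ = (0 : ℝ) := by
      rw [hτ, inner_sub_right, inner_smul_right, inner_smul_right, h1, h2]; ring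
    have iν : inner ℝ ν ν = (1 : ℝ) := by rw [real_inner_self_eq_norm_sq, hνn]; norm_num
    have iτ : inner ℝ τ τ = (1 : ℝ) := by rw [real_inner_self_eq_norm_sq, hτn]; norm_num
    have j1 : inner ℝ ν u = (0 : ℝ) := by rw [real_inner_comm]; exact i0'
    have j2 : inner ℝ τ u = (0 : ℝ) := by rw [real_inner_comm]; exact i0''
    have j3 : inner ℝ τ ν = (0 : ℝ) := by rw [real_inner_comm]; exact hντ
    have e1 : inner ℝ x' x' = (1 : ℝ) := by rw [real_inner_self_eq_norm_sq, hx'n]; norm_num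
    rw [hx'e] at e1
    simp only [inner_add_left, inner_add_right, inner_smul_left, inner_smul_right, i0, iν, iτ,
        i0', i0'', j1, j2, j3, hντ, conj_trivial] at e1
    have e2 : ρ ^ 2 * (C ^ 2 + S ^ 2) = ρ ^ 2 * 1 := by
      rw [mul_one, hρs]
      have : s ^ 2 + ρ ^ 2 * (C ^ 2 + S ^ 2) = 1 := by linarith
      rw [← hρs] 
      linarith
    exact mul_left_cancel₀ (pow_ne_zero 2 hρ.ne') e2
  have hS1 : -1 ≤ S ∧ S ≤ 1 := by
    constructor <;> nlinarith
  have hsin : Real.sin (Real.arcsin S) = S := Real.sin_arcsin hS1.1 hS1.2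
  have hcos : Real.cos (Real.arcsin S) = C := by
    rw [Real.cos_arcsin]
    have : 1 - S ^ 2 = C ^ 2 := by linarith
    rw [this, Real.sqrt_sq hCpos.le]
  refine ⟨φ + Real.arcsin S, ?_, ?_⟩
  · rw [mem_ball, Real.dist_eq, add_sub_cancel_left]
    exact hη' S (lt_of_lt_of_le hSabs (min_le_left _ _))
  · rw [mem_ofPred_eq, Real.cos_add, Real.sin_add, hsin, hcos]
    have : s • u + ρ • ((Real.cos φ * C - Real.sin φ * S) • e₁ +
        (Real.sin φ * C + Real.cos φ * S) • e₂) = x' := by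
      rw [hx'e, hν, hτ]
      module
    rw [this]
    exact hx'W

end Pool.Agent.LibSq57
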