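import Pool.Agent.LibSq57.Stage3

set_option autoImplicit false

namespace Pool.Agent.LibSq57

open Metric Set Filter Topology

/-- the angle whose double is the angle at the centre of a face diagonal turn -/
noncomputable def βa : ℝ := Real.arccos (Real.sqrt 3 / 3)

lemma sqrt3_sq : Real.sqrt 3 ^ 2 = 3 := Real.sq_sqrt (by norm_num)

lemma cosβ : Real.cos βa = Real.sqrt 3 / 3 := by
  have h := sqrt3_sq
  have h0 : 0 ≤ Real.sqrt 3 := Real.sqrt_nonneg _
  exact Real.cos_arccos (by linarith) (by nlinarith)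

lemma sinβ_sq : Real.sin βa ^ 2 = 2 / 3 := by
  have h := Real.cos_sq_add_sin_sq βa
  rw [cosβ] at h
  have h3 := sqrt3_sq
  linarith

lemma sinβ_nonneg : 0 ≤ Real.sin βa :=
  Real.sin_nonneg_of_nonneg_of_le_pi (Real.arccos_nonneg _) (Real.arccos_le_pi _)

lemma cos4β : Real.cos (4 * βa) = -7 / 9 := by
  have e : 4 * βa = 2 * (2 * βa) := by ring
  rw [e, Real.cos_two_mul, Real.cos_two_mul, cosβ]
  have h3 := sqrt3_sq
  have : (Real.sqrt 3 / 3) ^ 2 = 1 / 3 := by rw [div_pow, h3]; norm_num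
  rw [this]
  norm_num

lemma irr : Irrational (4 * βa / (2 * Real.pi)) := by
  rintro ⟨q, hq⟩
  have hpi := Real.pi_pos
  have h1 : 4 * βa = ((2 * q : ℚ) : ℝ) * Real.pi := by
    push_cast
    field_simp at hq
    linarith
  have h2 := niven (θ := 4 * βa) ⟨2 * q, h1⟩ ⟨-7 / 9, by rw [cos4β]; norm_num⟩
  rw [cos4β] at h2
  simp only [mem_insert_iff, mem_singleton_iff] at h2
  rcases h2 with h | h | h | h | h <;> norm_num at h

lemma angle_dense {η : ℝ} (hη : 0 < η) : ∃ j l : ℤ, |4 * βa * j + 2 * Real.pi * l + 2 * βa| < η := by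
  have hd := dense_addSubgroupClosure_pair_iff.2 irr
  obtain ⟨y, hy, hyG⟩ := Metric.dense_iff.1 hd (-(2 * βa)) η hη
  obtain ⟨j, l, hjl⟩ := AddSubgroup.mem_closure_pair.1 hyG
  refine ⟨j, l, ?_⟩
  rw [mem_ball, Real.dist_eq] at hy
  have e : 4 * βa * j + 2 * Real.pi * l + 2 * βa = y - -(2 * βa) := by
    rw [← hjl, zsmul_eq_mul, zsmul_eq_mul]; ring
  rw [e]
  exact hy

theorem core {U V : Set E3} (hU : IsOpen U) (hV : IsOpen V) (nU : NoSq U) (nV : NoSq V)
    (h0U : (0 : E3) ∈ closure U) (h0V : (0 : E3) ∈ closure V) (hd1 : DenseSph (U ∪ V))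
    (hd2 : ∀ x : E3, ‖x‖ = Real.sqrt 2 → ∀ ε > 0, ∃ x' ∈ U ∪ V, dist x' x < ε ∧
      ‖x'‖ = Real.sqrt 2) : False := by
  -- a wild point on the unit sphere
  have hne : (sphere (0 : E3) 1 ∩ (closure (sph U) ∩ closure (sph V))).Nonempty := by
    apply crossing
    · have hrank : 1 < Module.rank ℝ E3 := by
        rw [← Module.finrank_eq_rank]
        simp only [finrank_euclideanSpace, Fintype.card_fin]
        norm_num
      exact isPreconnected_sphere hrank 0 1
    · intro x hx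
      rw [← closure_union, ← sph_union]
      exact hd1 x (by simpa using hx)
    · obtain ⟨x, hx⟩ := sph_nonempty hV nV (by rwa [union_comm] at hd1)
      exact ⟨x, by simpa using hx.1, subset_closure hx⟩
    · obtain ⟨x, hx⟩ := sph_nonempty hU nU hd1
      exact ⟨x, by simpa using hx.1, subset_closure hx⟩
  obtain ⟨u₀, -, hu₀⟩ := hne
  obtain ⟨u, hu, hst⟩ := stage2 hU hV hd1 (fun i : Bool => if i then (0 : ℝ) else 1 / 2)
    (by intro i; cases i <;> norm_num) hu₀
  have hun : ‖u‖ = 1 := norm_of_closure hu.1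
  obtain ⟨e₁, e₂, n1, n2, h12, h1, h2, hspan⟩ := exists_frame' u hun
  have i0 : inner ℝ u u = (1 : ℝ) := by rw [real_inner_self_eq_norm_sq, hun]; norm_num
  have i1 : inner ℝ e₁ e₁ = (1 : ℝ) := by rw [real_inner_self_eq_norm_sq, n1]; norm_num
  have i2 : inner ℝ e₂ e₂ = (1 : ℝ) := by rw [real_inner_self_eq_norm_sq, n2]; norm_num
  have h10 : inner ℝ e₁ u = (0 : ℝ) := by rw [real_inner_comm]; exact h1
  have h20 : inner ℝ e₂ u = (0 : ℝ) := by rw [real_inner_comm]; exact h2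
  have h21 : inner ℝ e₂ e₁ = (0 : ℝ) := by rw [real_inner_comm]; exact h12
  have q3 := sqrt3_sq
  have q30 : 0 < Real.sqrt 3 := Real.sqrt_pos.2 (by norm_num)
  have hX := circle_dense (W := U ∪ V) hun n1 n2 h12 h1 h2 hspan (s := 1 / 2) (ρ := Real.sqrt 3 / 2)
    (by linarith) (by rw [div_pow, q3]; norm_num) (by simpa using hst false)
  have hY := circle_dense (W := U ∪ V) hun n1 n2 h12 h1 h2 hspan (s := 0) (ρ := 1)
    (by norm_num) (by norm_num) (by simpa using hst true)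
  set X : ℝ → E3 := fun φ => (1 / 2 : ℝ) • u + (Real.sqrt 3 / 2) • (Real.cos φ • e₁ + Real.sin φ • e₂)
    with hXdef
  set Y : ℝ → E3 := fun φ => (0 : ℝ) • u + (1 : ℝ) • (Real.cos φ • e₁ + Real.sin φ • e₂) with hYdef
  have hXc : Continuous X := by
    have := Real.continuous_cos
    have := Real.continuous_sin
    fun_prop
  have hYc : Continuous Y := by
    have := Real.continuous_cos
    have := Real.continuous_sin
    fun_prop
  have hXo : IsOpen {φ | X φ ∈ U ∪ V} := (hU.union hV).preimage hXc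
  have hYo : IsOpen {φ | Y φ ∈ U ∪ V} := (hU.union hV).preimage hYc
  -- a generic angle
  obtain ⟨φ, hφ⟩ : ∃ φ : ℝ, ∀ i : ℤ, X (φ + 2 * i * βa) ∈ U ∪ V ∧ Y (φ + (2 * i + 1) * βa) ∈ U ∪ V := by
    have key : ∀ (Z : ℝ → E3) (c : ℝ), IsOpen {φ | Z φ ∈ U ∪ V} → Dense {φ | Z φ ∈ U ∪ V} →
        {φ | Z (φ + c) ∈ U ∪ V} ∈ residual ℝ := by
      intro Z c ho hd
      have hh : {φ | Z (φ + c) ∈ U ∪ V} = (Homeomorph.addRight c) ⁻¹' {φ | Z φ ∈ U ∪ V} := rfl
      rw [hh]
      exact residual_of_dense_open (ho.preimage (Homeomorph.addRight c).continuous)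
        (hd.preimage (Homeomorph.addRight c).isOpenMap)
    have hres : {φ : ℝ | ∀ i : ℤ, X (φ + 2 * i * βa) ∈ U ∪ V ∧ Y (φ + (2 * i + 1) * βa) ∈ U ∪ V} ∈
        residual ℝ := by
      have : {φ : ℝ | ∀ i : ℤ, X (φ + 2 * i * βa) ∈ U ∪ V ∧ Y (φ + (2 * i + 1) * βa) ∈ U ∪ V} =
          ⋂ i : ℤ, ({φ : ℝ | X (φ + 2 * i * βa) ∈ U ∪ V} ∩
            {φ : ℝ | Y (φ + (2 * i + 1) * βa) ∈ U ∪ V}) := by
        ext φ
        simp only [mem_ofPred_eq, mem_iInter, mem_inter_iff]
      rw [this, countable_iInter_mem]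
      intro i
      exact Filter.inter_mem (key X _ hXo hX) (key Y _ hYo hY)
    exact (dense_of_mem_residual hres).nonempty
  have hXn : ∀ φ, ‖X φ‖ = 1 := by
    intro φ
    have hcs := Real.cos_sq_add_sin_sq φ
    have : ‖X φ‖ ^ 2 = 1 := by
      rw [← real_inner_self_eq_norm_sq, hXdef]
      simp only [inner_add_left, inner_add_right, inner_smul_left, inner_smul_right, i0, i1, i2,
        h1, h2, h12, h10, h20, h21, conj_trivial]
      have : Real.sqrt 3 ^ 2 * (Real.cos φ ^ 2 + Real.sin φ ^ 2) = 3 := by rw [hcs, q3]; ring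
      linarith
    have h0 := norm_nonneg (X φ)
    nlinarith
  have hYn : ∀ φ, ‖Y φ‖ = 1 := by
    intro φ
    have hcs := Real.cos_sq_add_sin_sq φ
    have : ‖Y φ‖ ^ 2 = 1 := by
      rw [← real_inner_self_eq_norm_sq, hYdef]
      simp only [inner_add_left, inner_add_right, inner_smul_left, inner_smul_right, i0, i1, i2,
        h1, h2, h12, h10, h20, h21, conj_trivial]
      linarith
    have h0 := norm_nonneg (Y φ)
    nlinarith
  have hYu : ∀ φ, inner ℝ u (Y φ) = (0 : ℝ) := by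
    intro φ
    rw [hYdef]
    simp only [inner_add_right, inner_smul_right, h1, h2]
    ring
  have hXu : ∀ φ, inner ℝ u (X φ) = (1 / 2 : ℝ) := by
    intro φ
    rw [hXdef]
    simp only [inner_add_right, inner_smul_right, h1, h2, i0]
    ring
  have hsum : ∀ φ, X (φ + βa) + X (φ - βa) = u + Y φ := by
    intro φ
    have e1 : Real.cos (φ + βa) + Real.cos (φ - βa) = 2 * (Real.sqrt 3 / 3) * Real.cos φ := by
      rw [Real.cos_add, Real.cos_sub, cosβ]; ring
    have e2 : Real.sin (φ + βa) + Real.sin (φ - βa) = 2 * (Real.sqrt 3 / 3) * Real.sin φ := by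
      rw [Real.sin_add, Real.sin_sub, cosβ]; ring
    have e3 : X (φ + βa) + X (φ - βa) = u + (Real.sqrt 3 / 2 * (Real.cos (φ + βa) +
        Real.cos (φ - βa))) • e₁ + (Real.sqrt 3 / 2 * (Real.sin (φ + βa) +
        Real.sin (φ - βa))) • e₂ := by
      rw [hXdef]; module
    have e4 : Y φ = Real.cos φ • e₁ + Real.sin φ • e₂ := by rw [hYdef]; module
    have e5 : Real.sqrt 3 / 2 * (2 * (Real.sqrt 3 / 3) * Real.cos φ) = Real.cos φ := by
      linear_combination (Real.cos φ / 3) * q3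
    have e6 : Real.sqrt 3 / 2 * (2 * (Real.sqrt 3 / 3) * Real.sin φ) = Real.sin φ := by
      linear_combination (Real.sin φ / 3) * q3
    rw [e3, e1, e2, e4, e5, e6, add_assoc]
  have hperp : ∀ φ, inner ℝ (X (φ + βa)) (X (φ - βa)) = (0 : ℝ) := by
    intro φ
    have hcs := Real.cos_sq_add_sin_sq φ
    have hs := sinβ_sq
    have e0 : Real.cos (φ + βa) * Real.cos (φ - βa) + Real.sin (φ + βa) * Real.sin (φ - βa) =
        - (1 / 3) := by
      have : Real.cos (φ + βa) * Real.cos (φ - βa) + Real.sin (φ + βa) * Real.sin (φ - βa) =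
          Real.cos (2 * βa) := by
        rw [← Real.cos_sub]; congr 1; ring
      rw [this, Real.cos_two_mul, cosβ, div_pow, q3]
      norm_num
    rw [hXdef]
    simp only [inner_add_left, inner_add_right, inner_smul_left, inner_smul_right, i0, i1, i2,
        h1, h2, h12, h10, h20, h21, conj_trivial]
    have : Real.sqrt 3 ^ 2 * (Real.cos (φ + βa) * Real.cos (φ - βa) +
        Real.sin (φ + βa) * Real.sin (φ - βa)) = -1 := by rw [e0, q3]; norm_num
    linarith
  -- the mixing property along the circle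
  have mix : ∀ i : ℤ, ¬ (X (φ + 2 * (i + 1 : ℤ) * βa) ∈ U ∧ X (φ + 2 * i * βa) ∈ U) ∧
      ¬ (X (φ + 2 * (i + 1 : ℤ) * βa) ∈ V ∧ X (φ + 2 * i * βa) ∈ V) := by
    intro i
    have a1 : φ + 2 * (i + 1 : ℤ) * βa = (φ + (2 * i + 1) * βa) + βa := by push_cast; ring
    have a2 : φ + 2 * i * βa = (φ + (2 * i + 1) * βa) - βa := by ring
    rw [a1, a2]
    set θ := φ + (2 * i + 1) * βa with hθ
    have hYW : Y θ ∈ U ∪ V := (hφ i).2
    constructor
    · exact mixing hU hV nU nV h0U h0V hd2 hu.1 hu.2 (hYn θ) (hYu θ) hYW (hXn _) (hXn _)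
        (hperp θ) (hXu _) (hsum θ)
    · exact mixing hV hU nV nU h0V h0U (by rwa [union_comm]) hu.2 hu.1 (hYn θ) (hYu θ)
        (by rwa [union_comm]) (hXn _) (hXn _) (hperp θ) (hXu _) (hsum θ)
  have hW : ∀ i : ℤ, X (φ + 2 * i * βa) ∈ U ∪ V := fun i => (hφ i).1
  -- the contradiction, for a pair of open sets in either order
  have fin : ∀ A B : Set E3, IsOpen A → (∀ i : ℤ, X (φ + 2 * i * βa) ∈ A ∪ B) →
      (∀ i : ℤ, ¬ (X (φ + 2 * (i + 1 : ℤ) * βa) ∈ A ∧ X (φ + 2 * i * βa) ∈ A) ∧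
        ¬ (X (φ + 2 * (i + 1 : ℤ) * βa) ∈ B ∧ X (φ + 2 * i * βa) ∈ B)) →
      X φ ∈ A → False := by
    intro A B hA hAB hm h0
    have hiff : ∀ i : ℤ, (X (φ + 2 * i * βa) ∈ A ↔ X (φ + 2 * (i + 1 : ℤ) * βa) ∈ B) := by
      intro i
      obtain ⟨m1, m2⟩ := hm i
      have w1 := hAB i
      have w2 := hAB (i + 1)
      simp only [mem_union] at w1 w2
      tauto
    have hiff' : ∀ i : ℤ, (X (φ + 2 * i * βa) ∈ B ↔ X (φ + 2 * (i + 1 : ℤ) * βa) ∈ A) := by
      intro i
      obtain ⟨m1, m2⟩ := hm i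
      have w1 := hAB i
      have w2 := hAB (i + 1)
      simp only [mem_union] at w1 w2
      tauto
    have heven : ∀ j : ℤ, X (φ + 2 * (2 * j : ℤ) * βa) ∈ A := by
      intro j
      induction j using Int.induction_on with
      | zero => simpa using h0
      | succ j ih =>
        have := (hiff' _).1 ((hiff _).1 ih)
        have e : (2 * ((j : ℤ) + 1) : ℤ) = 2 * (j : ℤ) + 1 + 1 := by ring
        rw [e]; exact this
      | pred j ih =>
        have e : (2 * (-(j : ℤ)) : ℤ) = 2 * (-(j : ℤ) - 1) + 1 + 1 := by ring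
        rw [e] at ih
        exact (hiff _).2 ((hiff' _).2 ih)
    obtain ⟨ε, hε, hball⟩ := Metric.isOpen_iff.1 (hA.preimage hXc) φ h0
    obtain ⟨j, l, hjl⟩ := angle_dense hε
    have hmem : X (φ + 2 * (2 * j + 1 : ℤ) * βa) ∈ A := by
      have h5 : φ + 4 * βa * j + 2 * Real.pi * l + 2 * βa ∈ ball φ ε := by
        rw [mem_ball, Real.dist_eq]
        have : φ + 4 * βa * j + 2 * Real.pi * l + 2 * βa - φ =
          4 * βa * j + 2 * Real.pi * l + 2 * βa := by ring
        rw [this]; exact hjl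
      have h6 := hball h5
      have h7 : X (φ + 4 * βa * j + 2 * Real.pi * l + 2 * βa) =
          X (φ + 2 * (2 * j + 1 : ℤ) * βa) := by
        have e : φ + 4 * βa * j + 2 * Real.pi * l + 2 * βa =
            (φ + 2 * (2 * j + 1 : ℤ) * βa) + l * (2 * Real.pi) := by push_cast; ring
        rw [e, hXdef]
        simp only [Real.cos_add_int_mul_two_pi, Real.sin_add_int_mul_two_pi]
      have h8 : X (φ + 4 * βa * j + 2 * Real.pi * l + 2 * βa) ∈ A := h6
      rwa [h7] at h8
    exact (hm (2 * j)).1 ⟨hmem, heven j⟩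
  rcases hW 0 with h | h
  · exact fin U V hU hW mix (by simpa using h)
  · exact fin V U hV (by simpa only [union_comm] using hW) (fun i => (mix i).symm) (by simpa using h)

end Pool.Agent.LibSq57
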