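import Pool.Agent.LibSq57.Stage4

set_option autoImplicit false

namespace Pool.Agent.LibSq57

open Metric Set Filter Topology

lemma generic_translate {G : Set E3} (hG : G ∈ residual E3) (S : Finset E3) {O : Set E3}
    (hO : O ∈ 𝓝 (0 : E3)) : ∃ t ∈ O, ∀ P ∈ S, P + t ∈ G := by
  have h1 : {t : E3 | ∀ P ∈ S, P + t ∈ G} ∈ residual E3 := by
    have : ∀ᶠ t in residual E3, ∀ P ∈ S, P + t ∈ G := by
      rw [Finset.eventually_all]
      intro P _
      exact (tendsto_residual_of_isOpenMap (continuous_add_left P)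
        (isOpenMap_add_left P)).eventually_mem hG
    exact this
  have h2 := dense_of_mem_residual h1
  obtain ⟨O', hO', hO'o, h0⟩ := _root_.mem_nhds_iff.1 hO
  obtain ⟨t, ht, htS⟩ := h2.inter_open_nonempty O' hO'o ⟨0, h0⟩
  exact ⟨t, hO' ht, htS⟩

/-- four vertices of a square inside an open set can be moved into a comeagre subset -/
lemma move_square {G W : Set E3} (hG : G ∈ residual E3) (hW : IsOpen W) {P a b : E3}
    (h0 : P ∈ W) (h1 : P + a ∈ W) (h2 : P + b ∈ W) (h3 : P + a + b ∈ W) :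
    ∃ Q : E3, Q ∈ W ∩ G ∧ Q + a ∈ W ∩ G ∧ Q + b ∈ W ∩ G ∧ Q + a + b ∈ W ∩ G := by
  classical
  have hn : {t : E3 | ∀ R ∈ ({P, P + a, P + b, P + a + b} : Finset E3), R + t ∈ W} ∈ 𝓝 (0 : E3) := by
    have : ∀ᶠ t in 𝓝 (0 : E3), ∀ R ∈ ({P, P + a, P + b, P + a + b} : Finset E3), R + t ∈ W := by
      rw [Finset.eventually_all]
      intro R hR
      have hRW : R ∈ W := by
        simp only [Finset.mem_insert, Finset.mem_singleton] at hR
        rcases hR with rfl | rfl | rfl | rfl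
        · exact h0
        · exact h1
        · exact h2
        · exact h3
      have : ContinuousAt (fun t : E3 => R + t) 0 := by fun_prop
      exact this.eventually_mem (hW.mem_nhds (by simpa using hRW))
    exact this
  obtain ⟨t, ht, htG⟩ := generic_translate hG {P, P + a, P + b, P + a + b} hn
  refine ⟨P + t, ⟨ht _ (by simp), htG _ (by simp)⟩, ?_, ?_, ?_⟩
  · have : P + t + a = P + a + t := by abel
    rw [this]
    exact ⟨ht _ (by simp), htG _ (by simp)⟩
  · have : P + t + b = P + b + t := by abel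
    rw [this]
    exact ⟨ht _ (by simp), htG _ (by simp)⟩
  · have : P + t + a + b = P + a + b + t := by abel
    rw [this]
    exact ⟨ht _ (by simp), htG _ (by simp)⟩

/-- no unit square of a ball lies in W -/
def NoSqBall (x₀ : E3) (W : Set E3) : Prop :=
  ∀ P a b : E3, ‖a‖ = 1 → ‖b‖ = 1 → inner ℝ a b = (0 : ℝ) → P ∈ W ∩ ball x₀ 4 →
    P + a ∈ W ∩ ball x₀ 4 → P + b ∈ W ∩ ball x₀ 4 → P + a + b ∈ W ∩ ball x₀ 4 → False

lemma meets_ball {x₀ : E3} {U V : Set E3} (hU : IsOpen U) (hV : IsOpen V) (hd : Dense (U ∪ V))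
    (nU : NoSqBall x₀ U) : (ball x₀ 1 ∩ closure V).Nonempty := by
  by_contra hne
  rw [not_nonempty_iff_eq_empty] at hne
  obtain ⟨e₀, n0, -⟩ := exists_unit_perp (0 : E3)
  obtain ⟨e₁, n1, h01⟩ := exists_unit_perp e₀
  have key : ∀ a b : ℝ, a ^ 2 = 1 / 4 → b ^ 2 = 1 / 4 → x₀ + (a • e₀ + b • e₁) ∈ ball x₀ 1 := by
    intro a b ha hb
    rw [mem_ball, dist_eq_norm, add_sub_cancel_left]
    have : ‖a • e₀ + b • e₁‖ ^ 2 = 1 / 2 := by
      rw [@norm_add_sq ℝ, inner_smul_left, inner_smul_right, h01, norm_smul, norm_smul, n0, n1]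
      simp only [RCLike.re_to_real, mul_zero, mul_one, Real.norm_eq_abs, sq_abs]
      rw [ha, hb]
      norm_num
    have h0 := norm_nonneg (a • e₀ + b • e₁)
    nlinarith
  have hG : U ∪ V ∈ residual E3 := residual_of_dense_open (hU.union hV) hd
  obtain ⟨Q, q0, q1, q2, q3⟩ := move_square (W := ball x₀ 1) hG isOpen_ball
    (P := x₀ + ((-(1 / 2) : ℝ) • e₀ + (-(1 / 2) : ℝ) • e₁)) (a := e₀) (b := e₁)
    (key _ _ (by norm_num) (by norm_num))
    (by
      have : x₀ + ((-(1 / 2) : ℝ) • e₀ + (-(1 / 2) : ℝ) • e₁) + e₀ =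
        x₀ + ((1 / 2 : ℝ) • e₀ + (-(1 / 2) : ℝ) • e₁) := by module
      rw [this]; exact key _ _ (by norm_num) (by norm_num))
    (by
      have : x₀ + ((-(1 / 2) : ℝ) • e₀ + (-(1 / 2) : ℝ) • e₁) + e₁ =
        x₀ + ((-(1 / 2) : ℝ) • e₀ + (1 / 2 : ℝ) • e₁) := by module
      rw [this]; exact key _ _ (by norm_num) (by norm_num))
    (by
      have : x₀ + ((-(1 / 2) : ℝ) • e₀ + (-(1 / 2) : ℝ) • e₁) + e₀ + e₁ =
        x₀ + ((1 / 2 : ℝ) • e₀ + (1 / 2 : ℝ) • e₁) := by module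
      rw [this]; exact key _ _ (by norm_num) (by norm_num))
  have hsub : ball x₀ 1 ∩ (U ∪ V) ⊆ U ∩ ball x₀ 4 := by
    rintro x ⟨hx, hxU | hxV⟩
    · exact ⟨hxU, ball_subset_ball (by norm_num) hx⟩
    · have hmem : x ∈ ball x₀ 1 ∩ closure V := ⟨hx, subset_closure hxV⟩
      rw [hne] at hmem
      exact absurd hmem (Set.notMem_empty x)
  exact nU Q e₀ e₁ n0 n1 h01 (hsub q0) (hsub q1) (hsub q2) (hsub q3)

lemma core_ball {x₀ : E3} {U V : Set E3} (hU : IsOpen U) (hV : IsOpen V) (hd : Dense (U ∪ V))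
    (nU : NoSqBall x₀ U) (nV : NoSqBall x₀ V) : False := by
  have hwild : (ball x₀ 1 ∩ (closure U ∩ closure V)).Nonempty := by
    apply crossing (convex_ball x₀ 1).isPreconnected
    · intro x _
      rw [← closure_union]
      exact hd x
    · exact meets_ball hV hU (by rwa [union_comm]) nV
    · exact meets_ball hU hV hd nU
  obtain ⟨p₀, hp₀b, hp₀⟩ := hwild
  have hr : 0 < 1 - dist p₀ x₀ := by
    rw [mem_ball] at hp₀b
    linarith
  obtain ⟨p, hp, hpd, hps⟩ := stage1 hU hV hd (fun i : Bool => if i then (1 : ℝ) else Real.sqrt 2)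
    (by
      intro i
      cases i
      · simp
      · simp) hp₀ hr
  have hpb : dist p x₀ < 1 := by
    have := dist_triangle p p₀ x₀
    linarith
  have hs1 := hps true
  have hs2 := hps false
  simp only [if_true] at hs1
  simp only [Bool.false_eq_true, if_false] at hs2
  have hc : Continuous (fun x : E3 => p + x) := by fun_prop
  have hnosq : ∀ W : Set E3, NoSqBall x₀ W → NoSq {x | p + x ∈ W} := by
    intro W nW q a b hq ha hb hab h0 h1 h2 h3
    have hab2 : ‖a + b‖ < 3 / 2 := by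
      have : ‖a + b‖ ^ 2 = 2 := by
        rw [@norm_add_sq ℝ, ha, hb, hab]
        norm_num
      have h0 := norm_nonneg (a + b)
      nlinarith
    have hin : ∀ z : E3, ‖z‖ < 3 → p + z ∈ ball x₀ 4 := by
      intro z hz
      rw [mem_ball, dist_eq_norm]
      rw [dist_eq_norm] at hpb
      have : p + z - x₀ = (p - x₀) + z := by abel
      rw [this]
      have := norm_add_le (p - x₀) z
      linarith
    refine nW (p + q) a b ha hb hab ⟨h0, hin q (by linarith)⟩ ?_ ?_ ?_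
    · rw [add_assoc]
      exact ⟨h1, hin _ (by have := norm_add_le q a; linarith)⟩
    · rw [add_assoc]
      exact ⟨h2, hin _ (by have := norm_add_le q b; linarith)⟩
    · have e : p + q + a + b = p + (q + a + b) := by abel
      rw [e]
      refine ⟨h3, hin _ ?_⟩
      rw [add_assoc]
      have := norm_add_le q (a + b)
      linarith
  have hcl : ∀ W : Set E3, p ∈ closure W → (0 : E3) ∈ closure {x | p + x ∈ W} := by
    intro W hW
    rw [Metric.mem_closure_iff] at hW ⊢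
    intro ε hε
    obtain ⟨b, hb, hbd⟩ := hW ε hε
    refine ⟨b - p, ?_, ?_⟩
    · simpa using hb
    · rw [dist_eq_norm] at hbd ⊢
      have : (0 : E3) - (b - p) = p - b := by abel
      rw [this]; exact hbd
  refine core (U := {x | p + x ∈ U}) (V := {x | p + x ∈ V}) (hU.preimage hc) (hV.preimage hc)
    (hnosq U nU) (hnosq V nV) (hcl U hp.1) (hcl V hp.2) ?_ ?_
  · intro x hx
    rw [Metric.mem_closure_iff]
    intro ε hε
    obtain ⟨q', hq', hq'd, hq'p⟩ := hs1 (p + x) (by rw [dist_eq_norm, add_sub_cancel_left]; exact hx)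
      ε hε
    refine ⟨q' - p, ⟨?_, ?_⟩, ?_⟩
    · rw [← dist_eq_norm]; exact hq'p
    · rcases hq' with h | h
      · left; simpa using h
      · right; simpa using h
    · rw [dist_comm, dist_eq_norm]
      rw [dist_eq_norm] at hq'd
      have : q' - p - x = q' - (p + x) := by abel
      rw [this]
      exact hq'd
  · intro x hx ε hε
    obtain ⟨q', hq', hq'd, hq'p⟩ := hs2 (p + x) (by rw [dist_eq_norm, add_sub_cancel_left]; exact hx)
      ε hε
    refine ⟨q' - p, ?_, ?_, ?_⟩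
    · rcases hq' with h | h
      · left; simpa using h
      · right; simpa using h
    · rw [dist_eq_norm] at hq'd ⊢
      have : q' - p - x = q' - (p + x) := by abel
      rw [this]
      exact hq'd
    · rw [← dist_eq_norm]; exact hq'p

theorem baire_square (f : E3 → Fin 2) (x₀ : E3) (i : Fin 2) (M : Set E3) (hM : IsMeagre M)
    (hf : BaireMeasurableSet (f ⁻¹' {i} ∩ ball x₀ 4)) :
    ∃ p q s : E3, ‖q - p‖ = 1 ∧ ‖s - p‖ = 1 ∧ inner ℝ (q - p) (s - p) = (0 : ℝ) ∧
      f q = f p ∧ f s = f p ∧ f (q + s - p) = f p ∧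
      ∀ x ∈ ({p, q, s, q + s - p} : Set E3), x ∈ ball x₀ 4 ∧ x ∉ M := by
  by_contra hcon
  obtain ⟨U₀, hU₀, hAU⟩ := hf.residualEq_isOpen
  set U : Set E3 := U₀ ∩ ball x₀ 4 with hU
  set V : Set E3 := (closure U)ᶜ with hV
  have hUo : IsOpen U := hU₀.inter isOpen_ball
  have hVo : IsOpen V := isClosed_closure.isOpen_compl
  have hd : Dense (U ∪ V) := by
    intro x
    rw [closure_union]
    by_cases hx : x ∈ closure U
    · exact Or.inl hx
    · exact Or.inr (subset_closure hx)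
  set G : Set E3 := {x | x ∉ M ∧ ((x ∈ f ⁻¹' {i} ∩ ball x₀ 4) ↔ x ∈ U₀)} with hGdef
  have hG : G ∈ residual E3 := by
    have h1 : ∀ᶠ x in residual E3, x ∉ M := hM
    have h2 : ∀ᶠ x in residual E3, ((x ∈ f ⁻¹' {i} ∩ ball x₀ 4) ↔ x ∈ U₀) := hAU.mem_iff
    exact h1.and h2
  have hall : ∀ W : Set E3, IsOpen W → (∀ x ∈ W ∩ ball x₀ 4 ∩ G, ∀ y ∈ W ∩ ball x₀ 4 ∩ G,
      f x = f y) → NoSqBall x₀ W := by
    intro W hW hmono P a b ha hb hab h0 h1 h2 h3
    obtain ⟨Q, q0, q1, q2, q3⟩ := move_square hG (hW.inter isOpen_ball) h0 h1 h2 h3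
    apply hcon
    refine ⟨Q, Q + a, Q + b, ?_, ?_, ?_, hmono _ q1 _ q0, hmono _ q2 _ q0, ?_, ?_⟩
    · rw [add_sub_cancel_left]; exact ha
    · rw [add_sub_cancel_left]; exact hb
    · rw [add_sub_cancel_left, add_sub_cancel_left]; exact hab
    · have e : Q + a + (Q + b) - Q = Q + a + b := by abel
      rw [e]; exact hmono _ q3 _ q0
    · have e : Q + a + (Q + b) - Q = Q + a + b := by abel
      rw [e]
      intro x hx
      simp only [mem_insert_iff, mem_singleton_iff] at hx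
      rcases hx with rfl | rfl | rfl | rfl
      · exact ⟨q0.1.2, q0.2.1⟩
      · exact ⟨q1.1.2, q1.2.1⟩
      · exact ⟨q2.1.2, q2.2.1⟩
      · exact ⟨q3.1.2, q3.2.1⟩
  refine core_ball hUo hVo hd (hall U hUo ?_) (hall V hVo ?_)
  · rintro x ⟨⟨hxU, -⟩, hxG⟩ y ⟨⟨hyU, -⟩, hyG⟩
    have hx : f x = i := (hxG.2.2 hxU.1).1
    have hy : f y = i := (hyG.2.2 hyU.1).1
    rw [hx, hy]
  · rintro x ⟨⟨hxV, hxb⟩, hxG⟩ y ⟨⟨hyV, hyb⟩, hyG⟩
    have hx : f x ≠ i := by
      intro h
      have : x ∈ U₀ := hxG.2.1 ⟨h, hxb⟩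
      exact hxV (subset_closure ⟨this, hxb⟩)
    have hy : f y ≠ i := by
      intro h
      have : y ∈ U₀ := hyG.2.1 ⟨h, hyb⟩
      exact hyV (subset_closure ⟨this, hyb⟩)
    have hfin : ∀ i c d : Fin 2, c ≠ i → d ≠ i → c = d := by decide
    exact hfin i _ _ hx hy

end Pool.Agent.LibSq57
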